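import Mathlib
import Pool.Agent.Results.MP_651af7_nt.CoversOfProjectiveSpace

/-!
# Vojta's conjecture for root stacks over all projective varieties: closed points over almost all
# points of projective space

Let `K` be a number field, `n = [K : ℚ]`, `m ≥ 1`, `n (m + 1) ≥ 3`. Let `X` be a normal projective
variety over `K` and `π : X → ℙ^m` a finite morphism of degree `N` (EVERY projective variety of
dimension `m` has such morphisms). The ring `A` of the functions on `X` which are regular over the
affine space `x_0 ≠ 0` is a normal domain, finite and of rank `N` over `K[z_1, …, z_m]`. Let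
`F_1, …, F_r` be different irreducible forms of degrees `κ_j` and, for every `j`, `D_j` a reduced
effective divisor on `X` all of whose components are above `F_j = 0`; let `Y_j` be a finite subset of
`A` such that `F_j` and `Y_j` generate the ideal of `D_j` (outside a subset of codimension two). Let
`s_j` be the degree over `F_j = 0` of the union of the prime divisors above `F_j = 0` which are NOT
components of `D_j`, `D = ∑ D_j`.

Let `𝒳` be the root stack of `X` of order `e_j ≥ 1` along `D_j` for all `j`, with coarse space `X` (a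
smooth proper Deligne-Mumford stack if `X` is smooth and the sum of the `D_j` with `e_j > 1` has simple
normal crossings), and for a set `J` of indices let `𝒟_J` be the sum of the stacky divisors above the
`D_j`, `j ∈ J`. Then `K_𝒳 + 𝒟_J` is the pull back of `K_X + D - ∑_{j ∉ J} D_j / e_j`, so
`h_{K_𝒳 + 𝒟_J} = h_{K_X + D} - ∑_{j ∉ J} h_{D_j} / e_j`.

Let `P` be a closed point of `X` above `x ∈ ℙ^m(K)` whose residue field `L` has degree `N` over `K`
(by Hilbert's irreducibility theorem this is so for almost all `x`), let `E` be a number field which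
contains `L`, and `S` a finite set of prime numbers. `P` comes from an integral point of `𝒳` over the
ring of `S`-integers of `E` if all intersection numbers of `P` and `D_j` at the primes of `E` not
above `S` are divisible by `e_j`; we only use this for the primes over which `P` is in the affine
part (`Integral`). As in `MP_651af7_nt.CoversOfProjectiveSpace`, if `R` is the part above the
`F_j = 0` of the ramification divisor of `π`, then
`h_{R + D}(P) = ∑_j (1 - s_j / N) κ_j h(x) + O(1)`, and `K_X = R + R' - (m + 1) π^* H`, where `R'` is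
the rest of the ramification divisor.

The forms `F_j` are of degree at most two, or orbits of conjugate hyperplanes: `F_j` is a norm form of
a linear form of degree less than three times the dimension of the space spanned by the conjugate
linear forms. Their number is arbitrary, and their singularities and intersections are arbitrary.

There is ONE set `E₀` of density zero in `ℙ^m(K)` such that for ALL `X`, `π`, `F_j`, `D_j`, all ideals
`I` on `X` (or divisors) and finite sets `S'` of primes, `M`, all ideals `(F'_l, G'_l)` of codimension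
two and all `Λ`, for `ε > 0`, all closed points `P` of degree `N` above points `x ∉ E₀` with
`h(x) > T` satisfy, for ALL number fields `E` which contain the residue field of `P`, ALL finite sets
`S` of primes, ALL orders `e_j` such that `P` comes from an integral point of `𝒳` over the
`S`-integers of `E`, and ALL `J`,

`h_{R + D}(P) - ∑_{j ∉ J} N_S(D_j, P) / e_j + M m_{S'}(I, P) + Λ ∑ h_{(F'_l, G'_l)}(x)
    ≤ N_S^(1)(𝒟_J, P) + d(E) + ε h(x) + ∑_{p ∈ S} log p`.

Here `N_S(D_j, P)`, the counting function of the intersection numbers (over the affine part), is at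
most `h_{D_j}(P) - m_S(D_j, P)`. So this is the inequality
`h_{K_𝒳 + 𝒟_J}(P) + m_S(∑_{j ∉ J} 𝒟_j, P) ≤ N_S^(1)(𝒟_J, P) + d(E) + ε h_A(P) + O(1)` whenever the
push-forward of `R'` has degree at most `(m + 1) N`, in particular if all components of the branch
divisor of `π` are hyperplanes, quadrics or orbits of at most `3 m + 2` conjugate hyperplanes in
general position. Moreover for each such set of data this holds for all but
`C B ^ {n (m + 1) - c}` of the `x` of height at most `B`, `c > 0`. The term with `Λ` bounds the heights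
relative to all divisors which are contracted to subsets of codimension at least two of `ℙ^m`, so that
the same inequalities hold for the root stacks over the embedded resolutions of `(X, D)`.

The starting results for this problem are about root stacks over projective spaces along hyperplanes,
their blow-ups, curves, and sparse points. Proof: for `E = L` and `𝒳 = X` the inequality is a starting
theorem (`MP_651af7_nt.CoversOfProjectiveSpace`, by helper752). The truncated counting function over
`L` is bounded by `d(E) - d(L)` and the truncated counting function over `E`, of which the primes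
where `P` meets some `D_j`, `j ∉ J`, make up at most `N_S(D_j, P) / e_j` each.
-/

set_option autoImplicit false

namespace Pool.Agent.Results.MP_a41896_nt.StackyCovers

open NumberField IsDedekindDomain Module MvPolynomial
open scoped LinearAlgebra.Projectivization
open Pool.Agent.N752.SU (DensityZero)
open Pool.Agent.N752.HY (hgt prox Outside ldisc)
open Pool.Agent.R366.NF (idealHeight)
open Pool.Agent.Results.MP_651af7_nt.CoversOfProjectiveSpace (affine FullWeight SheetsLE Points
  coords truncated Inequality)

/-- The local height at the prime `w` of `E` relative to the divisor `D_j` on `X`, of the point of `X`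
given by the homomorphism `ψ : A → E` above the point with affine coordinates `z`: the minimum of
`-log |f_j(z)|_w` and the `-log |ψ(y)|_w`, `y ∈ Y_j`, if this is positive, and zero otherwise. It is
`log N(w)` times the intersection number. -/
noncomputable def lam {K : Type} [Field K] {m : ℕ} {A : Type} [CommRing A] (E : Type) [Field E]
    [NumberField E] [Algebra K E] (f : MvPolynomial (Fin m) K) (Y : Finset A) (z : Fin m → K)
    (ψ : A →+* E) (w : HeightOneSpectrum (𝓞 E)) : ℝ :=
  max 0 (-Real.log (max (FinitePlace.mk w (algebraMap K E (eval z f)))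
    (⨆ y : Y, FinitePlace.mk w (ψ y))))

/-- the prime `w` of `E` is not above `S`, and the point with affine coordinates `z` is in the affine
space at `w` -/
def Good {K : Type} [Field K] {m : ℕ} (E : Type) [Field E] [NumberField E] [Algebra K E]
    (S : Finset ℕ) (z : Fin m → K) (w : HeightOneSpectrum (𝓞 E)) : Prop :=
  Outside S w ∧ ∀ i, FinitePlace.mk w (algebraMap K E (z i)) ≤ 1

open Classical in
/-- The truncated counting function `N_S^(1)(𝒟_J, P)`: the sum of `log N(w) / [E : ℚ]` over the primes
`w` of `E`, not above `S`, over which `P` is in the affine part and meets some `D_j`, `j ∈ J`. -/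
noncomputable def cnt {K : Type} [Field K] {m r : ℕ} {A : Type} [CommRing A] (E : Type) [Field E]
    [NumberField E] [Algebra K E] (S : Finset ℕ) (f : Fin r → MvPolynomial (Fin m) K)
    (Y : Fin r → Finset A) (z : Fin m → K) (ψ : A →+* E) (J : Finset (Fin r)) : ℝ :=
  (∑ᶠ w : HeightOneSpectrum (𝓞 E), if Good E S z w ∧ ∃ j ∈ J, 0 < lam E (f j) (Y j) z ψ w
    then Real.log (Ideal.absNorm w.asIdeal) else 0) / finrank ℚ E

open Classical in
/-- The counting function `N_S(D_j, P)`: the sum of the local heights, divided by `[E : ℚ]`, over the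
primes `w` of `E`, not above `S`, over which `P` is in the affine part. -/
noncomputable def counting {K : Type} [Field K] {m : ℕ} {A : Type} [CommRing A] (E : Type) [Field E]
    [NumberField E] [Algebra K E] (S : Finset ℕ) (f : MvPolynomial (Fin m) K)
    (Y : Finset A) (z : Fin m → K) (ψ : A →+* E) : ℝ :=
  (∑ᶠ w : HeightOneSpectrum (𝓞 E), if Good E S z w then lam E f Y z ψ w else 0) / finrank ℚ E

/-- The intersection numbers with `D_j` at the primes of `E` which are not above `S` and over which `P`
is in the affine part are divisible by `e_j`. -/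
def Integral {K : Type} [Field K] {m r : ℕ} {A : Type} [CommRing A] (E : Type) [Field E]
    [NumberField E] [Algebra K E] (S : Finset ℕ) (f : Fin r → MvPolynomial (Fin m) K)
    (Y : Fin r → Finset A) (e : Fin r → ℕ) (z : Fin m → K) (ψ : A →+* E) : Prop :=
  ∀ w : HeightOneSpectrum (𝓞 E), Good E S z w → ∀ j, ∃ t : ℕ,
    lam E (f j) (Y j) z ψ w = t * e j * Real.log (Ideal.absNorm w.asIdeal)

/-- The inequality at the point `Q` of `ℙ^m(K)`: `Q` is not on the divisors `x_0 = 0`, `F_j = 0`,
`R = 0`, and for all closed points of degree `N` of `Spec A` above `Q`, with residue field `L`, ALL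
number fields `E ⊇ L`, ALL finite sets `S` of primes, ALL orders `e_j ≥ 1` such that the point comes
from an integral point over the `S`-integers of `E` of the root stack of order `e_j` along `D_j`, and
ALL sets `J` of indices
`(∑_j (1 - s_j / N) κ_j - ε) h(Q) - ∑_{j ∉ J} N_S(D_j, P) / e_j + M m_{S'}(R, Q) +
  Λ ∑_l h_{(F'_l, G'_l)}(Q) ≤ N_S^(1)(𝒟_J, P) + d(E) + ∑_{p ∈ S} log p`. -/
def StackInequality {K : Type} [Field K] [NumberField K] {m : ℕ} (A : Type) [CommRing A]
    [IsDomain A] [Algebra (MvPolynomial (Fin m) K) A] {r t : ℕ}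
    (F : Fin r → MvPolynomial (Fin (m + 1)) (𝓞 K)) (κ : Fin r → ℕ) (Y : Fin r → Finset A)
    (s : Fin r → ℕ) (d : ℕ) (R : MvPolynomial (Fin (m + 1)) (𝓞 K)) (S' : Finset ℕ)
    (F' G' : Fin t → MvPolynomial (Fin (m + 1)) (𝓞 K)) (κ' ε' : Fin t → ℕ) (M Λ : ℕ) (ε : ℝ)
    (Q : ℙ K (Fin (m + 1) → K)) : Prop :=
  Q.rep 0 ≠ 0 ∧ (∀ j, aeval Q.rep (F j) ≠ 0) ∧ aeval Q.rep R ≠ 0 ∧
    ∀ (L : Type) [Field L] [NumberField L] [Algebra K L] (ψ : A →+* L), Function.Surjective ψ →
      Module.finrank K L = Module.finrank (MvPolynomial (Fin m) K) A →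
      (∀ f : MvPolynomial (Fin m) K, ψ (algebraMap (MvPolynomial (Fin m) K) A f) =
        algebraMap K L (eval (coords Q.rep) f)) →
      ∀ (E : Type) [Field E] [NumberField E] [Algebra L E] [Algebra K E] [IsScalarTower K L E]
        (S : Finset ℕ) (e : Fin r → ℕ), (∀ p ∈ S, p.Prime) → (∀ j, 1 ≤ e j) →
      Integral E S (fun j => affine (F j)) Y e (coords Q.rep) ((algebraMap L E).comp ψ) →
      ∀ J : Finset (Fin r),
      ((∑ j, (1 - (s j : ℝ) / Module.finrank (MvPolynomial (Fin m) K) A) * κ j) - ε) * hgt Q.rep -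
          ∑ j ∈ Jᶜ, counting E S (affine (F j)) (Y j) (coords Q.rep) ((algebraMap L E).comp ψ) /
            e j + M * prox K S' R d Q.rep +
          Λ * ((∑ l, idealHeight (F' l) (G' l) (κ' l) (ε' l) Q.rep) / finrank ℚ K) ≤
        cnt E S (fun j => affine (F j)) Y (coords Q.rep) ((algebraMap L E).comp ψ) J + ldisc E +
          ∑ p ∈ S, Real.log p

section proof

open Pool.Agent.H691R3 (fv fv_na fv_support_finite log_fv Nv log_Nv_pos)
open Pool.Agent.TH905.VF (fv_lt_ext)
open Pool.Agent.N752.HY.Ext (keyW outside_ext ld finrank_pos')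

variable {K : Type} [Field K] [NumberField K] {m r : ℕ} {A : Type} [CommRing A]

lemma lam_pos_iff {E : Type} [Field E] [NumberField E] [Algebra K E] {f : MvPolynomial (Fin m) K}
    {Y : Finset A} {z : Fin m → K} {ψ : A →+* E} (hf : eval z f ≠ 0)
    (w : HeightOneSpectrum (𝓞 E)) : 0 < lam E f Y z ψ w ↔
      FinitePlace.mk w (algebraMap K E (eval z f)) < 1 ∧ ∀ y ∈ Y, FinitePlace.mk w (ψ y) < 1 := by
  have hpos : 0 < FinitePlace.mk w (algebraMap K E (eval z f)) :=
    (fv w).pos ((map_ne_zero _).2 hf)
  have hmax : 0 < max (FinitePlace.mk w (algebraMap K E (eval z f)))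
      (⨆ y : Y, FinitePlace.mk w (ψ y)) := lt_of_lt_of_le hpos (le_max_left _ _)
  have h1 : 0 < lam E f Y z ψ w ↔ max (FinitePlace.mk w (algebraMap K E (eval z f)))
      (⨆ y : Y, FinitePlace.mk w (ψ y)) < 1 := by
    unfold lam
    rw [lt_max_iff]
    constructor
    · rintro (h | h)
      · exact absurd h (lt_irrefl _)
      · rw [neg_pos] at h
        exact (Real.log_neg_iff hmax).1 h
    · intro h
      right
      rw [neg_pos]
      exact Real.log_neg hmax h
  rw [h1, max_lt_iff]
  refine and_congr Iff.rfl ?_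
  constructor
  · intro h y hy
    have h2 := le_ciSup (f := fun y : Y => FinitePlace.mk w (ψ y)) (Set.finite_range _).bddAbove
      ⟨y, hy⟩
    exact lt_of_le_of_lt h2 h
  · intro h
    rcases isEmpty_or_nonempty Y with hY | hY
    · rw [Real.iSup_of_isEmpty]
      exact zero_lt_one
    · obtain ⟨y, hy⟩ := exists_eq_ciSup_of_finite (f := fun y : Y => FinitePlace.mk w (ψ y))
      rw [← hy]
      exact h y y.2

lemma lam_finite {E : Type} [Field E] [NumberField E] [Algebra K E] {f : MvPolynomial (Fin m) K}
    (Y : Finset A) {z : Fin m → K} (ψ : A →+* E) (hf : eval z f ≠ 0) :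
    {w : HeightOneSpectrum (𝓞 E) | lam E f Y z ψ w ≠ 0}.Finite := by
  refine (fv_support_finite ((map_ne_zero (algebraMap K E)).2 hf)).subset ?_
  intro w hw
  have h0 : 0 ≤ lam E f Y z ψ w := le_max_left _ _
  have h1 := ((lam_pos_iff hf w).1 (lt_of_le_of_ne h0 (Ne.symm hw))).1
  exact ne_of_lt h1

lemma fv_le_ext {L E : Type} [Field L] [NumberField L] [Field E] [NumberField E] [Algebra L E]
    (v : HeightOneSpectrum (𝓞 L)) (w : HeightOneSpectrum (𝓞 E))
    (hvw : w.asIdeal.LiesOver v.asIdeal) (a b : L) (h : fv v a ≤ fv v b) :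
    fv w (algebraMap L E a) ≤ fv w (algebraMap L E b) := by
  by_contra hc
  rw [not_le] at hc
  exact absurd ((fv_lt_ext (L := E) v w hvw b a).1 hc) (not_lt.2 h)

open Classical in
theorem transfer (L : Type) [Field L] [NumberField L] [Algebra K L] (E : Type) [Field E]
    [NumberField E] [Algebra L E] [Algebra K E] [IsScalarTower K L E] (S : Finset ℕ)
    (f : Fin r → MvPolynomial (Fin m) K) (Y : Fin r → Finset A) (z : Fin m → K) (ψ : A →+* L)
    (e : Fin r → ℕ) (J : Finset (Fin r)) (hf : ∀ j, eval z (f j) ≠ 0) (he : ∀ j, 1 ≤ e j)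
    (hint : Integral E S f Y e z ((algebraMap L E).comp ψ)) :
    truncated S f Y z ψ + ldisc L ≤
      cnt E S f Y z ((algebraMap L E).comp ψ) J + ldisc E +
        ∑ j ∈ Jᶜ, counting E S (f j) (Y j) z ((algebraMap L E).comp ψ) / e j := by
  set ψ' : A →+* E := (algebraMap L E).comp ψ with hψ'
  have hLd : (0 : ℝ) < finrank ℚ L := by exact_mod_cast finrank_pos
  have hEp := finrank_pos' (K := L) (L := E)
  have htow : (finrank ℚ E : ℝ) = finrank ℚ L * finrank L E := by
    exact_mod_cast (finrank_mul_finrank ℚ L E).symm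
  have he0 : ∀ j, (0 : ℝ) < e j := fun j => by exact_mod_cast he j
  have hnn : ∀ j (w : HeightOneSpectrum (𝓞 E)), 0 ≤ lam E (f j) (Y j) z ψ' w := fun j w =>
    le_max_left _ _
  have hKE : ∀ x : K, algebraMap K E x = algebraMap L E (algebraMap K L x) := fun x =>
    IsScalarTower.algebraMap_apply K L E x
  -- the primes of `L`
  have hfin : {v : HeightOneSpectrum (𝓞 L) | Outside S v ∧
      (∀ i, FinitePlace.mk v (algebraMap K L (z i)) ≤ 1) ∧
      ∃ j, FinitePlace.mk v (algebraMap K L (eval z (f j))) < 1 ∧
        ∀ y ∈ Y j, FinitePlace.mk v (ψ y) < 1}.Finite := by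
    refine (Set.finite_iUnion fun j =>
      fv_support_finite ((map_ne_zero (algebraMap K L)).2 (hf j))).subset ?_
    rintro v ⟨-, -, j, hj, -⟩
    exact Set.mem_iUnion.2 ⟨j, ne_of_lt hj⟩
  have h1 : truncated S f Y z ψ =
      (∑ v ∈ hfin.toFinset, Real.log (Ideal.absNorm v.asIdeal)) / finrank ℚ L := by
    unfold truncated
    rw [finsum_eq_sum_of_support_subset (s := hfin.toFinset)]
    · congr 1
      refine Finset.sum_congr rfl fun v hv => ?_
      exact if_pos ((Set.Finite.mem_toFinset _).1 hv)
    · intro v hv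
      rw [Finset.mem_coe, Set.Finite.mem_toFinset]
      by_contra hc
      exact hv (if_neg hc)
  -- the primes of `E`
  have hfinE : (⋃ j, {w : HeightOneSpectrum (𝓞 E) | lam E (f j) (Y j) z ψ' w ≠ 0}).Finite :=
    Set.finite_iUnion fun j => lam_finite (Y j) ψ' (hf j)
  have hfinJ : {w : HeightOneSpectrum (𝓞 E) | Good E S z w ∧
      ∃ j ∈ J, 0 < lam E (f j) (Y j) z ψ' w}.Finite := by
    refine hfinE.subset ?_
    rintro w ⟨-, j, -, hj⟩
    exact Set.mem_iUnion.2 ⟨j, hj.ne'⟩
  have hnJ : cnt E S f Y z ψ' J =
      (∑ w ∈ hfinJ.toFinset, Real.log (Ideal.absNorm w.asIdeal)) / finrank ℚ E := by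
    unfold cnt
    rw [finsum_eq_sum_of_support_subset (s := hfinJ.toFinset)]
    · congr 1
      refine Finset.sum_congr rfl fun w hw => ?_
      exact if_pos ((Set.Finite.mem_toFinset _).1 hw)
    · intro w hw
      rw [Finset.mem_coe, Set.Finite.mem_toFinset]
      by_contra hc
      exact hw (if_neg hc)
  have hcj : ∀ j, counting E S (f j) (Y j) z ψ' =
      (∑ w ∈ hfinE.toFinset, if Good E S z w then lam E (f j) (Y j) z ψ' w else 0) /
        finrank ℚ E := by
    intro j
    unfold counting
    rw [finsum_eq_sum_of_support_subset]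
    intro w hw
    rw [Finset.mem_coe, Set.Finite.mem_toFinset]
    by_contra hc
    refine hw ?_
    have h2 : lam E (f j) (Y j) z ψ' w = 0 := by
      by_contra h3
      exact hc (Set.mem_iUnion.2 ⟨j, h3⟩)
    show (if Good E S z w then lam E (f j) (Y j) z ψ' w else 0) = 0
    rw [h2, ite_self]
  have hab : ∀ w : HeightOneSpectrum (𝓞 E), (∃ v ∈ hfin.toFinset, w.asIdeal.LiesOver v.asIdeal) →
      Good E S z w ∧ ∃ j, 0 < lam E (f j) (Y j) z ψ' w := by
    rintro w ⟨v, hv, hvw⟩
    obtain ⟨h2, h3, j, h4, h5⟩ := (Set.Finite.mem_toFinset _).1 hv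
    refine ⟨⟨outside_ext S v w hvw h2, fun i => ?_⟩, j, (lam_pos_iff (hf j) w).2 ⟨?_, fun y hy => ?_⟩⟩
    · have h6 := fv_le_ext (E := E) v w hvw (algebraMap K L (z i)) 1 (by
        rw [map_one]
        exact h3 i)
      rw [map_one, map_one, ← hKE] at h6
      exact h6
    · have h6 := (fv_lt_ext (L := E) v w hvw (algebraMap K L (eval z (f j))) 1).2 (by
        rw [map_one]
        exact h4)
      rw [map_one, map_one, ← hKE] at h6
      exact h6
    · have h6 := (fv_lt_ext (L := E) v w hvw (ψ y) 1).2 (by
        rw [map_one]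
        exact h5 y hy)
      rw [map_one, map_one] at h6
      exact h6
  have key := keyW (K := L) (L := E) hfin.toFinset hfinJ.toFinset
    (fun w => ∑ j ∈ Jᶜ, 1 / (e j : ℝ) * if Good E S z w then lam E (f j) (Y j) z ψ' w else 0)
    (∑ j ∈ Jᶜ, 1 / (e j : ℝ) * (finrank ℚ E * counting E S (f j) (Y j) z ψ')) ?_ ?_
  · have h7 : (∑ j ∈ Jᶜ, 1 / (e j : ℝ) * (finrank ℚ E * counting E S (f j) (Y j) z ψ')) /
        finrank L E = finrank ℚ L * ∑ j ∈ Jᶜ, counting E S (f j) (Y j) z ψ' / e j := by
      rw [Finset.sum_div, Finset.mul_sum, htow]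
      refine Finset.sum_congr rfl fun j _ => ?_
      have := (he0 j).ne'
      field_simp
    have h8 : ld L E = finrank ℚ L * (ldisc E - ldisc L) := by
      unfold ld ldisc
      rw [htow]
      field_simp
    have h9 : (∑ w ∈ hfinJ.toFinset, Real.log (Ideal.absNorm w.asIdeal : ℝ)) / finrank L E =
        finrank ℚ L * cnt E S f Y z ψ' J := by
      rw [hnJ, htow]
      field_simp
    rw [add_div, h7, h8, h9] at key
    rw [h1]
    refine le_of_mul_le_mul_left ?_ hLd
    rw [mul_add (finrank ℚ L : ℝ), mul_add (finrank ℚ L : ℝ), mul_add (finrank ℚ L : ℝ),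
      mul_div_cancel₀ _ hLd.ne']
    linarith
  · intro w hw
    obtain ⟨hg, j, hj⟩ := hab w hw
    have hterm : ∀ j, 0 ≤ 1 / (e j : ℝ) * if Good E S z w then lam E (f j) (Y j) z ψ' w else 0 :=
      fun j => mul_nonneg (by positivity) (by rw [if_pos hg]; exact hnn j w)
    refine ⟨Finset.sum_nonneg fun j _ => hterm j, ?_⟩
    by_cases hjJ : j ∈ J
    · left
      rw [Set.Finite.mem_toFinset]
      exact ⟨hg, j, hjJ, hj⟩
    · right
      obtain ⟨t, ht⟩ := hint w hg j
      have ht1 : 1 ≤ t := by
        by_contra hc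
        have : t = 0 := by omega
        rw [ht, this, Nat.cast_zero, zero_mul, zero_mul] at hj
        exact lt_irrefl _ hj
      have h5 : Real.log (Ideal.absNorm w.asIdeal) ≤
          1 / (e j : ℝ) * if Good E S z w then lam E (f j) (Y j) z ψ' w else 0 := by
        rw [if_pos hg, ht]
        have h0 : 0 ≤ Real.log (Ideal.absNorm w.asIdeal : ℝ) := Real.log_natCast_nonneg _
        have ht1' : (1 : ℝ) ≤ t := by exact_mod_cast ht1
        have he' := (he0 j).ne'
        have : 1 / (e j : ℝ) * (t * e j * Real.log (Ideal.absNorm w.asIdeal)) =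
            t * Real.log (Ideal.absNorm w.asIdeal) := by
          field_simp
        rw [this]
        nlinarith
      exact h5.trans (Finset.single_le_sum
        (f := fun j => 1 / (e j : ℝ) * if Good E S z w then lam E (f j) (Y j) z ψ' w else 0)
        (fun j _ => hterm j) (Finset.mem_compl.2 hjJ))
  · intro W hW
    rw [Finset.sum_comm]
    refine Finset.sum_le_sum fun j _ => ?_
    rw [← Finset.mul_sum]
    refine mul_le_mul_of_nonneg_left ?_ (by positivity)
    have hE0 : (finrank ℚ E : ℝ) ≠ 0 := by
      rw [htow]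
      exact (mul_pos hLd hEp).ne'
    rw [hcj j, mul_div_cancel₀ _ hE0]
    have hsub : W ⊆ hfinE.toFinset := by
      intro w hw
      obtain ⟨-, j', hj'⟩ := hab w (hW w hw)
      rw [Set.Finite.mem_toFinset]
      exact Set.mem_iUnion.2 ⟨j', hj'.ne'⟩
    refine Finset.sum_le_sum_of_subset_of_nonneg hsub fun w _ _ => ?_
    split_ifs
    · exact hnn j w
    · exact le_rfl

end proof

/-- **Vojta's conjecture for root stacks over all projective varieties.** Let `K` be a number field
with an embedding `φ` in the complex numbers, `n = [K : ℚ]`, `m ≥ 1` and `n (m + 1) ≥ 3`. There is ONE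
set `E₀` of points of `ℙ^m(K)`, of density zero (with respect to the height), with the following
properties.

Let `A` be any normal domain, finite over `K[z_1, …, z_m]` and containing it, of rank `N`; let
`F_1, …, F_r` be forms over `O_K` of degrees `κ_j`, irreducible over `K`, different from `x_0` and
pairwise not associated, of degree at most two or products over `ℂ` of linear forms which span a
space of dimension greater than `κ_j / 3`; let `Y_1, …, Y_r` be finite subsets of `A` (equations of
`D_j`) and `s_1, …, s_r ≤ N` such that the union of the prime divisors above `F_j = 0` on which not all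
elements of `Y_j` vanish has degree at most `s_j` over `F_j = 0`. Let `R ≠ 0` be a form of degree `d`,
`S'` a finite set of primes, `(F'_l, G'_l)` pairs of forms, `F'_l` irreducible over `K` and not a
divisor of `G'_l`, `M`, `Λ` natural numbers and `ε > 0`.

(1) There is `T` such that the inequality for all root stacks (`StackInequality`) holds for ALL
`Q ∉ E₀` with `h(Q) > T`.

(2) There are `c > 0` and `C` such that for all `T ≥ 0` at most `C exp ((n (m + 1) - c) T)` points `Q`
with `h(Q) ≤ T` do not satisfy it. -/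
theorem result (K : Type) [Field K] [NumberField K] (φ : K →+* ℂ) (m : ℕ) (hm : 1 ≤ m)
    (hd : 3 ≤ finrank ℚ K * (m + 1)) :
    ∃ E₀ : Set (ℙ K (Fin (m + 1) → K)), DensityZero (Points K m) E₀ ∧
      -- for all covers
      ∀ (A : Type) [CommRing A] [IsDomain A] [IsIntegrallyClosed A]
        [Algebra (MvPolynomial (Fin m) K) A] [FaithfulSMul (MvPolynomial (Fin m) K) A]
        [Module.Finite (MvPolynomial (Fin m) K) A]
        -- all divisors
        (r : ℕ) (F : Fin r → MvPolynomial (Fin (m + 1)) (𝓞 K)) (κ : Fin r → ℕ)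
        (Y : Fin r → Finset A) (s : Fin r → ℕ),
        (∀ j, (F j).IsHomogeneous (κ j)) →
        (∀ j, Irreducible (map (algebraMap (𝓞 K) K) (F j))) →
        (∀ j, Irreducible (affine (F j))) →
        (∀ i j, i ≠ j →
          ¬ Associated (map (algebraMap (𝓞 K) K) (F i)) (map (algebraMap (𝓞 K) K) (F j))) →
        (∀ j, FullWeight (map (φ.comp (algebraMap (𝓞 K) K)) (F j)) (κ j)) →
        (∀ j, SheetsLE A (affine (F j)) (Y j) (s j)) →
        (∀ j, s j ≤ Module.finrank (MvPolynomial (Fin m) K) A) →
        -- all ideals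
        ∀ (d : ℕ) (R : MvPolynomial (Fin (m + 1)) (𝓞 K)), R.IsHomogeneous d → R ≠ 0 →
        ∀ S' : Finset ℕ, (∀ p ∈ S', p.Prime) →
        ∀ (t : ℕ) (F' G' : Fin t → MvPolynomial (Fin (m + 1)) (𝓞 K)) (κ' ε' : Fin t → ℕ),
        (∀ l, (F' l).IsHomogeneous (κ' l)) → (∀ l, (G' l).IsHomogeneous (ε' l)) →
        (∀ l, Irreducible (map (algebraMap (𝓞 K) K) (F' l))) →
        (∀ l, ¬ map (algebraMap (𝓞 K) K) (F' l) ∣ map (algebraMap (𝓞 K) K) (G' l)) →
        ∀ (M Λ : ℕ) (ε : ℝ), 0 < ε →
          (∃ T : ℝ, ∀ Q : ℙ K (Fin (m + 1) → K), Q ∉ E₀ → T < hgt Q.rep →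
            StackInequality A F κ Y s d R S' F' G' κ' ε' M Λ ε Q) ∧
          ∃ c C : ℝ, 0 < c ∧ ∀ T : ℝ, 0 ≤ T →
            {Q | Q ∈ Points K m T ∧ ¬ StackInequality A F κ Y s d R S' F' G' κ' ε' M Λ ε Q}.Finite ∧
            ({Q | Q ∈ Points K m T ∧
                ¬ StackInequality A F κ Y s d R S' F' G' κ' ε' M Λ ε Q}.ncard : ℝ) ≤
              C * Real.exp (((finrank ℚ K : ℝ) * (m + 1) - c) * T) := by
  obtain ⟨E₀, hE₀, hall⟩ :=
    Pool.Agent.Results.MP_651af7_nt.CoversOfProjectiveSpace.result K φ m hm hd
  refine ⟨E₀, hE₀, ?_⟩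
  intro A _ _ _ _ _ _ r F κ Y s h1 h2 h3 h4 h5 h6 h7 d R hR hR0 S' hS' t F' G' κ' ε' g1 g2 g3 g4
    M Λ ε hε
  obtain ⟨hA, c, C, hc, hB⟩ := hall A r F κ Y s h1 h2 h3 h4 h5 h6 h7 d R hR hR0 S' hS' t F' G' κ' ε'
    g1 g2 g3 g4 M Λ ε hε
  have key : ∀ Q : ℙ K (Fin (m + 1) → K), Inequality A F κ Y s d R S' F' G' κ' ε' M Λ ε Q →
      StackInequality A F κ Y s d R S' F' G' κ' ε' M Λ ε Q := by
    rintro Q ⟨c1, c2, c3, c4⟩
    refine ⟨c1, c2, c3, ?_⟩
    intro L _ _ _ ψ hψ hfr hcomp E _ _ _ _ _ S e hS he hint J
    have hzF : ∀ j, eval (coords Q.rep) (affine (F j)) ≠ 0 := by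
      intro j h0
      apply c2 j
      rw [Pool.Agent.N752.CP.deh_eval (h1 j) c1]
      have : eval (fun i : Fin m => Q.rep i.succ / Q.rep 0) (Pool.Agent.N752.CP.deh (F j)) = 0 := h0
      rw [this, mul_zero]
    have e1 := c4 L ψ hψ hfr hcomp S hS
    have e2 := transfer L E S (fun j => affine (F j)) Y (coords Q.rep) ψ e J hzF he hint
    linarith
  constructor
  · obtain ⟨T, hT⟩ := hA
    exact ⟨T, fun Q hQE hTQ => key Q (hT Q hQE hTQ)⟩
  · refine ⟨c, C, hc, fun T hT => ?_⟩
    obtain ⟨hfin, hcard⟩ := hB T hT
    have hsub : {Q | Q ∈ Points K m T ∧ ¬ StackInequality A F κ Y s d R S' F' G' κ' ε' M Λ ε Q} ⊆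
        {Q | Q ∈ Points K m T ∧ ¬ Inequality A F κ Y s d R S' F' G' κ' ε' M Λ ε Q} := by
      rintro Q ⟨hQ1, hQ2⟩
      exact ⟨hQ1, fun hg => hQ2 (key Q hg)⟩
    refine ⟨hfin.subset hsub, le_trans ?_ hcard⟩
    exact_mod_cast Set.ncard_le_ncard hsub hfin

end Pool.Agent.Results.MP_a41896_nt.StackyCovers
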