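import Mathlib
import Pool.Agent.T2h82.Ln.Big3

/-!
# The integral points of a stacky line, ordered by the truncated counting function

The stack is the projective line over `ℤ[1/S]` with a root of order `m ≥ 1` along the point
`P₀ = (0 : 1)`; the divisor consists of `q` further rational points `Pᵢ`, given by linear forms
`Lᵢ`, and, if `j = 1`, of the (stacky) point over `P₀`. The integral points `x` off `P₀` and the
`Pᵢ` are ordered by `R x = exp N^(1)(D, x)`. Their number with `R ≤ X`, of all heights if `m = 1`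
and of height at most `X ^ κ` if `m ≥ 2`, is asymptotic to `c X ^ ((m + 1) / (q m + j))`, the
quotient `H / R ^ (m / (q m + j))` has a limit distribution, and all but a power saving of the
points have `H ≤ R ^ (m / (q m + j) + δ)`.
-/

set_option autoImplicit false

open MeasureTheory Filter Topology

namespace Pool.Agent.Results.MP_a41896_nt.StackyLineLaw

/-- the linear form `Lᵢ = γᵢ a + αᵢ b` with the zero `Pᵢ` -/
def L {q : ℕ} (α γ : Fin q → ℤ) (i : Fin q) (p : ℤ × ℤ) : ℤ := γ i * p.1 + α i * p.2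

/-- `(a : b)`, with `a > 0` and `b` coprime, is an integral point over `ℤ[1/S]` of the line with a
root of order `m` along `P₀ = (0 : 1)`, different from `P₀` and the `Pᵢ`: outside of `S` all prime
exponents of `a` are multiples of `m` -/
structure IsPoint (m : ℕ) {q : ℕ} (α γ : Fin q → ℤ) (S : Finset ℕ) (p : ℤ × ℤ) : Prop where
  pos : 0 < p.1
  cop : IsCoprime p.1 p.2
  ne : ∀ i, L α γ i p ≠ 0
  dvd : ∀ r : ℕ, r.Prime → r ∉ S → m ∣ p.1.natAbs.factorization r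

/-- the product of the primes outside of `S` where `(a : b)` meets the divisor: the exponential of
the truncated counting function -/
def R (j : ℕ) {q : ℕ} (α γ : Fin q → ℤ) (S : Finset ℕ) (p : ℤ × ℤ) : ℕ :=
  ∏ r ∈ (p.1 ^ j * ∏ i, L α γ i p).natAbs.primeFactors.filter (fun r => r ∉ S), r

/-- the height of `(a : b)` -/
def H (p : ℤ × ℤ) : ℤ := max |p.1| |p.2|

/-- the classes `σ` in the decomposition `a = σ x ^ m` -/
def twists (m : ℕ) (S : Finset ℕ) : Finset ℕ := (∏ r ∈ S, r ^ (m - 1)).divisors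

/-- the pairs `(x, u)`, `0 < x ≤ T`, `0 ≤ u ≤ T ^ m`, for which `(σ x ^ m : u)` is a point off the
`Pᵢ` with `gcd (σ x) u = 1` and `|x ^ j ∏ Lᵢ| = w R` -/
def pairs (m j : ℕ) {q : ℕ} (α γ : Fin q → ℤ) (S : Finset ℕ) (σ w : ℕ) (T : ℝ) : Set (ℤ × ℤ) :=
  {p | 0 < p.1 ∧ (p.1 : ℝ) ≤ T ∧ 0 ≤ p.2 ∧ (p.2 : ℝ) ≤ T ^ m ∧ IsCoprime ((σ : ℤ) * p.1) p.2 ∧
    (∀ i, L α γ i ((σ : ℤ) * p.1 ^ m, p.2) ≠ 0) ∧
    |p.1 ^ j * ∏ i, L α γ i ((σ : ℤ) * p.1 ^ m, p.2)| =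
      w * R j α γ S ((σ : ℤ) * p.1 ^ m, p.2)}

/-- the real polynomial `s ^ j ∏ Lᵢ(σ s ^ m, t)` -/
def G (m j : ℕ) {q : ℕ} (α γ : Fin q → ℤ) (σ : ℕ) (p : ℝ × ℝ) : ℝ :=
  p.1 ^ j * ∏ i, ((γ i : ℝ) * (σ * p.1 ^ m) + α i * p.2)

/-- the points of the half plane with `|s ^ j ∏ Lᵢ(σ s ^ m, t)| ≤ 1` -/
def region (m j : ℕ) {q : ℕ} (α γ : Fin q → ℤ) (σ : ℕ) : Set (ℝ × ℝ) :=
  {p | 0 ≤ p.1 ∧ |G m j α γ σ p| ≤ 1}

/-- the points of the half plane with `|G| ≤ w` and `h ^ d w ^ m ≤ τ ^ d |G| ^ m`, where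
`d = q m + j` and `h = max (σ s ^ m) |t|` -/
def lawRegion (m j : ℕ) {q : ℕ} (α γ : Fin q → ℤ) (σ w : ℕ) (τ : ℝ) : Set (ℝ × ℝ) :=
  {p | 0 ≤ p.1 ∧ |G m j α γ σ p| ≤ w ∧ (w : ℝ) ^ m * (max (σ * p.1 ^ m) |p.2|) ^ (q * m + j) ≤
    τ ^ (q * m + j) * |G m j α γ σ p| ^ m}

/-- the exponent `(m + 1) / (q m + j)` of the count: minus the degree of the canonical divisor over
the degree of the divisor -/
noncomputable def θ (m q j : ℕ) : ℝ := ((m : ℝ) + 1) / ((q : ℝ) * m + j)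

/-- the exponent `m / (q m + j)` of the typical height: the inverse of the degree of the divisor -/
noncomputable def κ₁ (m q j : ℕ) : ℝ := (m : ℝ) / ((q : ℝ) * m + j)

/-- the restriction on the height: none for `m = 1`, height at most `X ^ κ` for `m ≥ 2` -/
def InRange (m : ℕ) (κ X : ℝ) (p : ℤ × ℤ) : Prop := m = 1 ∨ (H p : ℝ) ≤ X ^ κ

/-- the end of the range of the heights for `m ≥ 2` -/
noncomputable def κ₂ (m q j : ℕ) : ℝ :=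
  (m : ℝ) / ((q : ℝ) * m + j) * (((m : ℝ) + 1) / ((m : ℝ) + 1 - 1 / (6 * ((q : ℝ) + 1))))

open Pool.Agent.T2h82.Ln in
/-- the data of the twists -/
def pre {m q j : ℕ} (hm : 1 ≤ m) (hj : j ≤ 1) (hd : m + 2 ≤ q * m + j)
    (α γ : Fin q → ℤ) (hα : ∀ i, α i ≠ 0) (hdet : ∀ i k, i ≠ k → α i * γ k - α k * γ i ≠ 0) :
    Pre := ⟨m, q, j, α, γ, hm, hj, hα, hdet, hd⟩

open Pool.Agent.T2h82.Ln in
theorem isPoint_iff {m q j : ℕ} (hm : 1 ≤ m) (hj : j ≤ 1) (hd : m + 2 ≤ q * m + j)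
    (α γ : Fin q → ℤ) (hα : ∀ i, α i ≠ 0) (hdet : ∀ i k, i ≠ k → α i * γ k - α k * γ i ≠ 0)
    (S : Finset ℕ) (p : ℤ × ℤ) :
    IsPoint m α γ S p ↔ (pre hm hj hd α γ hα hdet).Pt S p :=
  ⟨fun h => ⟨h.pos, h.cop, h.ne, h.dvd⟩, fun h => ⟨h.pos, h.cop, h.ne, h.dvd⟩⟩

open Pool.Agent.T2h82.Ln Pool.Agent.T2h82.As in
theorem pairs_eq {m q j : ℕ} (hm : 1 ≤ m) (hj : j ≤ 1) (hd : m + 2 ≤ q * m + j)
    (α γ : Fin q → ℤ) (hα : ∀ i, α i ≠ 0) (hdet : ∀ i k, i ≠ k → α i * γ k - α k * γ i ≠ 0)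
    (S : Finset ℕ) (hS : ∀ r ∈ S, r.Prime) {σ : ℕ} (hσ : σ ∈ twists m S) (w : ℕ) {T : ℝ}
    (hT : 0 < T) : pairs m j α γ S σ w T =
      Pool.Agent.T2h82.As.Pt (Fn ((pre hm hj hd α γ hα hdet).dat σ) S (One w Un)) T (T ^ m) := by
  have hσ0 : σ ≠ 0 := (sig_pos (m := m) (S := S) hσ).ne'
  have hTm : 0 < T ^ m := by positivity
  set P := pre hm hj hd α γ hα hdet with hP
  ext p
  have hok : (P.dat σ).Ok p ↔ 0 < p.1 ∧ IsCoprime ((σ : ℤ) * p.1) p.2 ∧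
      (∀ i, L α γ i ((σ : ℤ) * p.1 ^ m, p.2) ≠ 0) := by
    constructor
    · intro h
      have hc := h.cop
      unfold Pre.dat at hc
      simp only [if_neg hσ0] at hc
      exact ⟨h.x0, hc, fun i h1 => h.f0 i ((dat_f P hσ0 i p).trans h1)⟩
    · rintro ⟨h1, h2, h3⟩
      refine ⟨h1, fun i h4 => h3 i ((dat_f P hσ0 i p).symm.trans h4), ?_⟩
      unfold Pre.dat
      simp only [if_neg hσ0]
      exact h2
  have hG : (P.dat σ).G p = p.1 ^ j * ∏ i, L α γ i ((σ : ℤ) * p.1 ^ m, p.2) := by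
    unfold Dat.G
    exact congrArg _ (Finset.prod_congr rfl (fun i _ => dat_f P hσ0 i p))
  have hmem := mem_pt (P.dat σ) S (One w Un) T (T ^ m) p
  refine Iff.trans ?_ hmem.symm
  rw [hok]
  have hrep : (P.dat σ).Ok p → ((|p.1 ^ j * ∏ i, L α γ i ((σ : ℤ) * p.1 ^ m, p.2)| =
      (w : ℤ) * R j α γ S ((σ : ℤ) * p.1 ^ m, p.2)) ↔ eS S ((P.dat σ).G p).natAbs = w) := by
    intro h
    have h1 := radS_mul_eS S (Int.natAbs_ne_zero.2 h.G0)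
    have h2 : radS S ((P.dat σ).G p).natAbs = R j α γ S ((σ : ℤ) * p.1 ^ m, p.2) :=
      dat_rs P hS hσ h
    have h3 := radS_pos S ((P.dat σ).G p).natAbs
    rw [← hG, Int.abs_eq_natAbs, ← h2]
    constructor
    · intro h4
      have h5 : ((P.dat σ).G p).natAbs = w * radS S ((P.dat σ).G p).natAbs := by exact_mod_cast h4
      have h6 : eS S ((P.dat σ).G p).natAbs * radS S ((P.dat σ).G p).natAbs =
          w * radS S ((P.dat σ).G p).natAbs := by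
        rw [← h5, mul_comm, h1]
      exact Nat.eq_of_mul_eq_mul_right h3 h6
    · intro h4
      have h5 : ((P.dat σ).G p).natAbs = w * radS S ((P.dat σ).G p).natAbs := by
        rw [← h4, mul_comm, h1]
      exact_mod_cast h5
  have hbox : (0 ≤ (p.1 : ℝ) / T ∧ (p.1 : ℝ) / T ≤ 1) ∧ (0 ≤ (p.2 : ℝ) / T ^ m ∧
      (p.2 : ℝ) / T ^ m ≤ 1) ↔ (0 ≤ p.1 ∧ (p.1 : ℝ) ≤ T) ∧ (0 ≤ p.2 ∧ (p.2 : ℝ) ≤ T ^ m) := by
    rw [div_le_one hT, div_le_one hTm, le_div_iff₀ hT, le_div_iff₀ hTm, zero_mul, zero_mul]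
    constructor
    · rintro ⟨⟨h1, h2⟩, h3, h4⟩
      exact ⟨⟨by exact_mod_cast h1, h2⟩, by exact_mod_cast h3, h4⟩
    · rintro ⟨⟨h1, h2⟩, h3, h4⟩
      exact ⟨⟨by exact_mod_cast h1, h2⟩, by exact_mod_cast h3, h4⟩
  constructor
  · rintro ⟨a1, a2, a3, a4, a5, a6, a7⟩
    have h1 := hok.2 ⟨a1, a5, a6⟩
    refine ⟨⟨a1, a5, a6⟩, ?_⟩
    unfold Pool.Agent.T2h82.Ln.One
    rw [if_pos ((hrep h1).1 a7)]
    unfold Un
    rw [Set.mem_prod, Set.mem_Icc, Set.mem_Icc]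
    exact hbox.2 ⟨⟨a1.le, a2⟩, a3, a4⟩
  · rintro ⟨⟨a1, a5, a6⟩, h2⟩
    have h1 := hok.2 ⟨a1, a5, a6⟩
    unfold Pool.Agent.T2h82.Ln.One at h2
    split_ifs at h2 with h3
    · unfold Un at h2
      rw [Set.mem_prod, Set.mem_Icc, Set.mem_Icc] at h2
      obtain ⟨⟨b1, b2⟩, b3, b4⟩ := hbox.1 h2
      exact ⟨a1, b2, b3, b4, a5, a6, (hrep h1).2 h3⟩
    · exact absurd h2 (Set.notMem_empty _)

/-- **Theorem.** See the claim. -/
theorem result {m q j : ℕ} (hm : 1 ≤ m) (hj : j ≤ 1) (hd : m + 2 ≤ q * m + j)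
    (α γ : Fin q → ℤ) (hα : ∀ i, α i ≠ 0) (hdet : ∀ i k, i ≠ k → α i * γ k - α k * γ i ≠ 0)
    (S : Finset ℕ) (hS : ∀ r ∈ S, r.Prime) :
    ∃ (ρ : ℕ → ℕ → ℝ) (F : ℝ → ℝ) (c : ℝ),
      (∀ σ ∈ twists m S, volume (region m j α γ σ) ≠ ⊤ ∧ 0 < (volume (region m j α γ σ)).toReal ∧
        (∀ w, Tendsto (fun T : ℝ => ((pairs m j α γ S σ w T).ncard : ℝ) / T ^ (m + 1)) atTop
          (𝓝 (ρ σ w))) ∧
        Summable (fun w : ℕ => ρ σ w * (w : ℝ) ^ θ m q j)) ∧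
      c = ∑ σ ∈ twists m S,
        (volume (region m j α γ σ)).toReal * ∑' w : ℕ, ρ σ w * (w : ℝ) ^ θ m q j ∧
      0 < c ∧ κ₁ m q j < κ₂ m q j ∧
      (∀ κ : ℝ, κ₁ m q j < κ → κ < κ₂ m q j →
        (∀ X : ℝ, {p | IsPoint m α γ S p ∧ (R j α γ S p : ℝ) ≤ X ∧ InRange m κ X p}.Finite) ∧
        Tendsto (fun X : ℝ => ({p | IsPoint m α γ S p ∧ (R j α γ S p : ℝ) ≤ X ∧
          InRange m κ X p}.ncard : ℝ) / X ^ θ m q j) atTop (𝓝 c)) ∧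
      (∀ τ : ℝ, 0 < τ → F τ = ∑ σ ∈ twists m S,
        ∑' w : ℕ, ρ σ w * (volume (lawRegion m j α γ σ w τ)).toReal) ∧
      (∀ τ : ℝ, 0 < τ →
        Tendsto (fun X : ℝ => ({p | IsPoint m α γ S p ∧ (R j α γ S p : ℝ) ≤ X ∧
          (H p : ℝ) ≤ τ * (R j α γ S p : ℝ) ^ κ₁ m q j}.ncard : ℝ) / X ^ θ m q j) atTop
          (𝓝 (F τ))) ∧
      MonotoneOn F (Set.Ioi 0) ∧ (∃ τ₀ : ℝ, 0 < τ₀ ∧ ∀ τ : ℝ, 0 < τ → τ < τ₀ → F τ = 0) ∧
      Tendsto F atTop (𝓝 c) ∧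
      ∀ κ δ : ℝ, 0 < κ → κ < κ₂ m q j → 0 < δ → ∃ ν C : ℝ, 0 < ν ∧ 0 < C ∧ ∀ X : ℝ, 1 ≤ X →
        ({p | IsPoint m α γ S p ∧ (R j α γ S p : ℝ) ≤ X ∧ InRange m κ X p ∧
          (R j α γ S p : ℝ) ^ (κ₁ m q j + δ) < H p}.ncard : ℝ) ≤ C * X ^ (θ m q j - ν) := by
  classical
  set P := pre hm hj hd α γ hα hdet with hP
  have hpt : ∀ p, IsPoint m α γ S p ↔ P.Pt S p := isPoint_iff hm hj hd α γ hα hdet S
  have hσ0 : ∀ σ ∈ twists m S, σ ≠ 0 := fun σ hσ => (Pool.Agent.T2h82.Ln.sig_pos (m := m) hσ).ne'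
  have hGr : ∀ σ ∈ twists m S, ∀ p : ℝ × ℝ, Pool.Agent.T2h82.Ln.Gr (P.dat σ) p = G m j α γ σ p := by
    intro σ hσ p
    unfold Pool.Agent.T2h82.Ln.Gr Pool.Agent.T2h82.Ln.fr G
    refine congrArg _ (Finset.prod_congr rfl (fun i _ => ?_))
    show ((α i : ℤ) : ℝ) * p.2 + ((γ i * (if σ = 0 then 1 else (σ : ℤ)) : ℤ) : ℝ) * p.1 ^ m = _
    rw [if_neg (hσ0 σ hσ)]
    push_cast
    ring
  have hreg : ∀ σ ∈ twists m S, ∀ w : ℝ, Pool.Agent.T2h82.Ln.Rinf (P.dat σ) w =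
      {p | 0 ≤ p.1 ∧ |G m j α γ σ p| ≤ w} := by
    intro σ hσ w
    unfold Pool.Agent.T2h82.Ln.Rinf
    ext p
    simp only [Set.mem_ofPred_eq, hGr σ hσ p]
  have hlaw : ∀ σ ∈ twists m S, ∀ (w : ℕ) (τ : ℝ), Pool.Agent.T2h82.Ln.Rl (P.dat σ) τ w =
      lawRegion m j α γ σ w τ := by
    intro σ hσ w τ
    unfold Pool.Agent.T2h82.Ln.Rl lawRegion
    ext p
    simp only [Set.mem_ofPred_eq, hGr σ hσ p]
    have hHr : Pool.Agent.T2h82.Ln.Hr (P.dat σ) p = max (σ * p.1 ^ m) |p.2| := by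
      unfold Pool.Agent.T2h82.Ln.Hr
      simp only [hP, pre, Pool.Agent.T2h82.Ln.Pre.dat, if_neg (hσ0 σ hσ)]
      push_cast
      rw [Nat.abs_cast]
    rw [hHr]
    rfl
  have hth : ∀ σ, Pool.Agent.T2h82.Ln.θ (P.dat σ) = θ m q j := fun σ =>
    Pool.Agent.T2h82.Ln.dat_th P σ
  have hR : ∀ p, P.R S p = R j α γ S p := fun p => rfl
  have hH : ∀ p, Pool.Agent.T2h82.Ln.Hh p = H p := fun p => rfl
  have hsets : ∀ Q : ℤ × ℤ → Prop, {p | IsPoint m α γ S p ∧ Q p} = {p | P.Pt S p ∧ Q p} := by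
    intro Q
    ext p
    simp only [Set.mem_ofPred_eq, hpt p]
  have hcc : ∀ σ ∈ twists m S, Pool.Agent.T2h82.Ln.cc (P.dat σ) S =
      (volume (region m j α γ σ)).toReal *
        ∑' w : ℕ, Pool.Agent.T2h82.Ln.ρ (P.dat σ) S w * (w : ℝ) ^ θ m q j ∧
      Summable (fun w : ℕ => Pool.Agent.T2h82.Ln.ρ (P.dat σ) S w * (w : ℝ) ^ θ m q j) := by
    intro σ hσ
    have h1 := Pool.Agent.T2h82.Ln.cc_eq (P.dat σ) S
    have h2 : Pool.Agent.T2h82.Ln.Ar (P.dat σ) = (volume (region m j α γ σ)).toReal := by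
      unfold Pool.Agent.T2h82.Ln.Ar region
      rw [hreg σ hσ 1]
    have h3 := Pool.Agent.T2h82.Ln.ar_pos (P.dat σ)
    rw [hth] at h1
    have h4 := h1.mul_left (Pool.Agent.T2h82.Ln.Ar (P.dat σ))⁻¹
    have h5 : (fun w : ℕ => (Pool.Agent.T2h82.Ln.Ar (P.dat σ))⁻¹ *
        (Pool.Agent.T2h82.Ln.Ar (P.dat σ) * (Pool.Agent.T2h82.Ln.ρ (P.dat σ) S w *
          (w : ℝ) ^ θ m q j))) =
        fun w : ℕ => Pool.Agent.T2h82.Ln.ρ (P.dat σ) S w * (w : ℝ) ^ θ m q j := by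
      funext w
      rw [inv_mul_cancel_left₀ h3.ne']
    rw [h5] at h4
    refine ⟨?_, h4.summable⟩
    rw [h4.tsum_eq, ← h2, mul_inv_cancel_left₀ h3.ne']
  have hκ : κ₁ m q j < κ₂ m q j := by
    have := Pool.Agent.T2h82.Ln.kappa_gt (P.dat 1)
    rw [Pool.Agent.T2h82.Ln.dat_kap, Pool.Agent.T2h82.Ln.dat_d] at this
    exact this
  refine ⟨fun σ w => Pool.Agent.T2h82.Ln.ρ (P.dat σ) S w, P.GL S, P.cst S, ?_, ?_,
    Pool.Agent.T2h82.Ln.cst_pos P S hS, hκ, ?_, ?_, ?_, Pool.Agent.T2h82.Ln.gl_mono P S,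
    Pool.Agent.T2h82.Ln.gl_small P S, Pool.Agent.T2h82.Ln.gl_lim P S, ?_⟩
  · intro σ hσ
    have h1 : Pool.Agent.T2h82.Ln.Rinf (P.dat σ) 1 = region m j α γ σ := hreg σ hσ 1
    refine ⟨?_, ?_, fun w => ?_, (hcc σ hσ).2⟩
    · rw [← h1]
      exact Pool.Agent.T2h82.Ln.rinf_fin (P.dat σ)
    · rw [← h1]
      exact Pool.Agent.T2h82.Ln.ar_pos (P.dat σ)
    · refine (Pool.Agent.T2h82.Ln.ρ_spec (P.dat σ) S w).congr' ?_
      filter_upwards [eventually_gt_atTop 0] with T hT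
      rw [pairs_eq hm hj hd α γ hα hdet S hS hσ w hT, pow_succ']
      rfl
  · exact Finset.sum_congr rfl (fun σ hσ => (hcc σ hσ).1)
  · intro κ h1 h2
    rcases eq_or_ne m 1 with hm1 | hm1
    · have e : ∀ X : ℝ, {p | IsPoint m α γ S p ∧ (R j α γ S p : ℝ) ≤ X ∧ InRange m κ X p} =
          {p | P.Pt S p ∧ (P.R S p : ℝ) ≤ X} := by
        intro X
        ext p
        constructor
        · rintro ⟨a1, a2, -⟩
          exact ⟨(hpt p).1 a1, a2⟩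
        · rintro ⟨a1, a2⟩
          exact ⟨(hpt p).2 a1, a2, Or.inl hm1⟩
      simp only [e]
      exact ⟨fun X => Pool.Agent.T2h82.Ln.pre_fin S P hS hm1 X,
        Pool.Agent.T2h82.Ln.pre_count S P hS hm1⟩
    · have e : ∀ X : ℝ, {p | IsPoint m α γ S p ∧ (R j α γ S p : ℝ) ≤ X ∧ InRange m κ X p} =
          {p | P.Pt S p ∧ (P.R S p : ℝ) ≤ X ∧ (Pool.Agent.T2h82.Ln.Hh p : ℝ) ≤ X ^ κ} := by
        intro X
        ext p
        simp only [Set.mem_ofPred_eq, hpt p, InRange, hm1, false_or]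
        rfl
      simp only [e]
      refine ⟨fun X => ?_, Pool.Agent.T2h82.Ln.stk_count P S hS (κ := κ) h1 h2⟩
      refine ((Set.finite_Icc (-⌊X ^ κ⌋) ⌊X ^ κ⌋).prod
        (Set.finite_Icc (-⌊X ^ κ⌋) ⌊X ^ κ⌋)).subset ?_
      rintro p ⟨-, -, h4⟩
      have h5 : Pool.Agent.T2h82.Ln.Hh p ≤ ⌊X ^ κ⌋ := Int.le_floor.2 h4
      have h6 : |p.1| ≤ Pool.Agent.T2h82.Ln.Hh p := le_max_left _ _
      have h7 : |p.2| ≤ Pool.Agent.T2h82.Ln.Hh p := le_max_right _ _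
      rw [Set.mem_prod, Set.mem_Icc, Set.mem_Icc, ← abs_le, ← abs_le]
      exact ⟨h6.trans h5, h7.trans h5⟩
  · intro τ hτ
    show ∑ σ ∈ _, Pool.Agent.T2h82.Ln.GG (P.dat σ) S τ = _
    refine Finset.sum_congr rfl (fun σ hσ => ?_)
    unfold Pool.Agent.T2h82.Ln.GG
    exact tsum_congr (fun w => by rw [hlaw σ hσ w τ])
  · intro τ hτ
    have h3 := Pool.Agent.T2h82.Ln.stk_law P S hS hτ
    simp only [hsets]
    exact h3
  · intro κ δ h1 h2 h3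
    rcases eq_or_ne m 1 with hm1 | hm1
    · obtain ⟨ν, C, h4, h5, h6⟩ := Pool.Agent.T2h82.Ln.pre_exc S P hS hm1 h3
      refine ⟨ν, C, h4, h5, fun X hX => ?_⟩
      have h7 := h6 X hX
      refine le_trans (le_of_eq ?_) h7
      congr 2
      ext p
      constructor
      · rintro ⟨a1, a2, -, a3⟩
        exact ⟨(hpt p).1 a1, a2, a3⟩
      · rintro ⟨a1, a2, a3⟩
        exact ⟨(hpt p).2 a1, a2, Or.inl hm1, a3⟩
    · obtain ⟨ν, C, h4, h5, h6⟩ := Pool.Agent.T2h82.Ln.stk_exc P S hS h1 h2 h3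
      refine ⟨ν, C, h4, h5, fun X hX => ?_⟩
      refine le_trans (le_of_eq ?_) (h6 X hX)
      congr 2
      ext p
      constructor
      · rintro ⟨a1, a2, a4, a3⟩
        exact ⟨(hpt p).1 a1, a2, a4.resolve_left hm1, a3⟩
      · rintro ⟨a1, a2, a4, a3⟩
        exact ⟨(hpt p).2 a1, a2, Or.inr a4, a3⟩

end Pool.Agent.Results.MP_a41896_nt.StackyLineLaw
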