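import Mathlib
import Pool.Agent.Results.MP_9ec3f0_nt.ProductsOfLines
import Pool.Agent.T2h19.ST.Tr

/-!
# Vojta's conjecture for the root stacks of products of lines along all reduced divisors, over all
# number fields: one exceptional set for all stacks

Let `K` be a number field, `m ≥ 1`, and let `D` be a reduced divisor of `(ℙ¹)^m` over `K`: the sum of
finitely many prime divisors `F_j = 0` (`F_j` an irreducible polynomial in `m` variables over `K`) and
of some of the divisors `x_i = ∞`. The components `D_c` of `D` may have arbitrary singularities and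
intersections. Let `(q_1, …, q_m)` be the multidegree of `D`, `(d_{c 1}, …, d_{c m})` the one of `D_c`,
and `δ(D)` the sum of `k_c - 2` over the components of total degree `k_c = ∑ d_{c i} ≥ 6`.

Let `𝒳` be the root stack of `(ℙ¹)^m` of order `e_c ≥ 1` along `D_c` for all `c`, with coarse space
`(ℙ¹)^m` (a smooth proper Deligne-Mumford stack if the sum of the `D_c` with `e_c > 1` has simple
normal crossings), and for a set `J` of components let `𝒟_J` be the sum of the stacky divisors above
the `D_c`, `c ∈ J`. Then `K_𝒳 + 𝒟_J` is the pullback of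
`K + ∑_{c ∈ J} D_c + ∑_{c ∉ J} (1 - 1 / e_c) D_c`, so that
`h_{K_𝒳 + 𝒟_J}(x) = ∑_i (q_i - 2 - ∑_{c ∉ J} d_{c i} / e_c) h(x_i)`.

Let `L` be a number field which contains `K`, `S` a finite set of prime numbers and `x` a point over
`K` off `D`. Then `x` comes from an integral point of `𝒳` over the ring of `S`-integers of `L` if for
every prime `w` of `L` not above `S` and all `c` the intersection number of `x` and `D_c` at `w`
(the local height divided by `log N(w)`) is divisible by `e_c` (`Integral`).

We prove that there is ONE set `E` of points over `K`, of density zero, such that for ALL `D` and all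
`ε > 0` there is a constant `C` with
`∑_i (q_i - δ(D) / m - ε - ∑_{c ∉ J} d_{c i} / e_c) h(x_i) + ∑_{c ∉ J} m_S(D_c, x) / e_c
    ≤ N_S^{(1)}(𝒟_J, x) + d(L) - d(K) + ∑_{p ∈ S} log p + C`,
with truncated counting function and logarithmic discriminant over `L` and the proximity function
`m_S` (the local heights at the places above `S` and infinity), for all `x = (x_1, …, x_m)` over `K`
outside `E` and off `D`, ALL number fields `L ⊇ K`, ALL finite `S`, ALL orders `e_c ≥ 1` such that
`x` comes from an integral point of `𝒳` over the `S`-integers of `L`, and ALL `J`.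

So we obtain the inequality `h_{K_𝒳 + 𝒟_J}(x) ≤ N_S^{(1)}(𝒟_J, x) + ε ∑ h(x_i) + d(L) + O(1)` for all
root stacks along `D` if `δ(D) ≤ 2 m`, for example for all `D` whose components have total degree at
most five (where `2 ∑ h(x_i)` is to spare) and for all irreducible `D` of total degree at most
`2 m + 2`. We may add to the left hand side `Λ` times the heights relative to ideals `(F'_l, G'_l)` of
codimension two, `Λ` as large as we like; on a smooth variety birational to `(ℙ¹)^m` the heights of the
divisors contracted in `(ℙ¹)^m` are bounded by multiples of such heights, so that the result concerns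
the root stacks over the embedded resolutions of `D` as well.

Proof: over `K` the inequality is a starting theorem (`MP_9ec3f0_nt.ProductsOfLines`). The truncated
counting function over `K` is bounded by the logarithmic discriminant of `L / K` and the truncated
counting function over `L`, of which the primes where `x` meets some `D_c`, `c ∉ J`, make up at most
`(∑ d_{c i} h(x_i) - m_S(D_c, x) + O(1)) / e_c` each (`Pool.Agent.T2h19.ST`).
-/

set_option autoImplicit false

namespace Pool.Agent.Results.MP_a41896_nt.StackyProductsOfLines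

open NumberField IsDedekindDomain Module Height
open Pool.Agent.N752.HY (Outside ldisc)
open Pool.Agent.Results.MP_9ec3f0_nt.ProductsOfLines (degree defect idealHeight)

variable {K : Type} [Field K] {m r : ℕ}

/-- the components `D_c` of `D`: the divisors `F_j = 0` and the divisors `x_i = ∞` with `i ∈ I` -/
abbrev Comp (r : ℕ) {m : ℕ} (I : Finset (Fin m)) : Type := Fin r ⊕ {i // i ∈ I}

/-- the degree `d_{c i}` of the component `D_c` in the variable `x_i` -/
noncomputable def cdeg (F : Fin r → MvPolynomial (Fin m) K) (I : Finset (Fin m)) :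
    Comp r I → Fin m → ℕ
  | Sum.inl j, i => (F j).degreeOf i
  | Sum.inr l, i => if i = l.1 then 1 else 0

/-- the local height at the place with absolute value `f` of `L` of the point `x` over `K`, relative to
the component `D_c`: the logarithm of `|F|_f ∏ max (1, |x_i|_f) ^ d_i / |F(x)|_f`, where `|F|_f` is the
maximum of the absolute values of the coefficients and `d_i` is the degree of `F` in `x_i`, for
`D_c : F = 0`, and the logarithm of `max (1, |x_i|_f)` for `D_c : x_i = ∞` -/
noncomputable def lam (L : Type) [Field L] [Algebra K L] (F : Fin r → MvPolynomial (Fin m) K)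
    (I : Finset (Fin m)) (x : Fin m → K) (f : L → ℝ) : Comp r I → ℝ
  | Sum.inl j => Real.log (⨆ s : (F j).support, f (algebraMap K L ((F j).coeff s))) +
      ∑ i, ((F j).degreeOf i : ℝ) * Real.log (max 1 (f (algebraMap K L (x i)))) -
        Real.log (f (algebraMap K L (MvPolynomial.eval x (F j))))
  | Sum.inr l => Real.log (max 1 (f (algebraMap K L (x l.1))))

open Classical in
/-- The truncated counting function `N_S^{(1)}(𝒟_J, x)`: the sum of `log N(w) / [L : ℚ]` over the
primes `w` of `L` not above `S` at which the local height relative to some `D_c`, `c ∈ J`, is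
positive. -/
noncomputable def cnt (L : Type) [Field L] [NumberField L] [Algebra K L] (S : Finset ℕ)
    (F : Fin r → MvPolynomial (Fin m) K) (I : Finset (Fin m)) (J : Finset (Comp r I))
    (x : Fin m → K) : ℝ :=
  (∑ᶠ w : HeightOneSpectrum (𝓞 L),
    if Outside S w ∧ ∃ c ∈ J, 0 < lam L F I x (FinitePlace.mk w) c
    then Real.log (Ideal.absNorm w.asIdeal) else 0) / finrank ℚ L

/-- The proximity function `m_S(D_c, x)`: the sum of the local heights relative to `D_c` at the places
of `L` above `S` and infinity, divided by `[L : ℚ]`. -/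
noncomputable def prox (L : Type) [Field L] [NumberField L] [Algebra K L] (S : Finset ℕ)
    (F : Fin r → MvPolynomial (Fin m) K) (I : Finset (Fin m)) (c : Comp r I) (x : Fin m → K) : ℝ :=
  (∑ w : InfinitePlace L, (w.mult : ℝ) * lam L F I x w c +
    ∑ᶠ w ∈ {w : HeightOneSpectrum (𝓞 L) | ¬ Outside S w}, lam L F I x (FinitePlace.mk w) c) /
      finrank ℚ L

/-- All intersection numbers of `x` and `D_c` at the primes of `L` not above `S` are divisible by
`e_c`. -/
def Integral (L : Type) [Field L] [NumberField L] [Algebra K L] (S : Finset ℕ)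
    (F : Fin r → MvPolynomial (Fin m) K) (I : Finset (Fin m)) (e : Comp r I → ℕ)
    (x : Fin m → K) : Prop :=
  ∀ w : HeightOneSpectrum (𝓞 L), Outside S w → ∀ c, ∃ t : ℕ,
    lam L F I x (FinitePlace.mk w) c = t * e c * Real.log (Ideal.absNorm w.asIdeal)

/-- The inequality for all root stacks along `D` at the point `x`, with the constant `C`: for ALL
number fields `L` which contain `K`, ALL finite sets `S` of primes, ALL orders `e_c ≥ 1` such that `x`
comes from an integral point over the `S`-integers of `L` of the root stack of order `e_c` along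
`D_c`, and ALL sets `J` of components, with `h = logHeight₁ / [K : ℚ]`,
`∑_i (q_i - δ(D) / m - ε - ∑_{c ∉ J} d_{c i} / e_c) h(x_i) + ∑_{c ∉ J} m_S(D_c, x) / e_c
    + Λ ∑_l h_{(F'_l, G'_l)}(x) ≤ N_S^{(1)}(𝒟_J, x) + d(L) - d(K) + ∑_{p ∈ S} log p + C`. -/
def StackInequality [NumberField K] {t : ℕ} (F : Fin r → MvPolynomial (Fin m) K)
    (I : Finset (Fin m)) (F' G' : Fin t → MvPolynomial (Fin m) K) (Λ ε C : ℝ) (x : Fin m → K) :
    Prop :=
  ∀ (L : Type) [Field L] [NumberField L] [Algebra K L] (S : Finset ℕ) (e : Comp r I → ℕ),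
    (∀ p ∈ S, p.Prime) → (∀ c, 1 ≤ e c) → Integral L S F I e x → ∀ J : Finset (Comp r I),
      ∑ i, ((degree F I i : ℝ) - (defect F : ℝ) / m - ε - ∑ c ∈ Jᶜ, (cdeg F I c i : ℝ) / e c) *
          (logHeight₁ (x i) / finrank ℚ K) + ∑ c ∈ Jᶜ, prox L S F I c x / e c +
          Λ * ∑ l, idealHeight (F' l) (G' l) x / finrank ℚ K ≤
        cnt L S F I J x + (ldisc L - ldisc K) + ∑ p ∈ S, Real.log p + C

open Pool.Agent.T2h19.ST (lp loc prp transfer lp_nonneg loc_support coeff_ne ne_of_eval)

/-- the polynomials of the components -/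
noncomputable def pol (F : Fin r → MvPolynomial (Fin m) K) (I : Finset (Fin m)) :
    Comp r I → MvPolynomial (Fin m) K
  | Sum.inl j => F j
  | Sum.inr _ => 1

lemma lp_one {L : Type} [Field L] [Algebra K L] (f : AbsoluteValue L ℝ) (d : Fin m → ℕ)
    (x : Fin m → K) : lp L f 1 d x = ∑ i, (d i : ℝ) * Real.log (max 1 (f (algebraMap K L (x i)))) := by
  have h1 : ∀ s : (1 : MvPolynomial (Fin m) K).support,
      f (algebraMap K L ((1 : MvPolynomial (Fin m) K).coeff s)) = 1 := by
    intro s
    have hs := MvPolynomial.mem_support_iff.1 s.2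
    rw [MvPolynomial.coeff_one] at hs ⊢
    split_ifs at hs ⊢ with h
    · rw [map_one, map_one]
    · exact absurd rfl hs
  have hne : Nonempty (1 : MvPolynomial (Fin m) K).support := by
    obtain ⟨s, hs⟩ := MvPolynomial.support_nonempty.2 (one_ne_zero (α := MvPolynomial (Fin m) K))
    exact ⟨⟨s, hs⟩⟩
  unfold Pool.Agent.T2h19.ST.lp Pool.Agent.T2h19.ST.loc
  rw [iSup_congr h1, ciSup_const, Real.log_one, map_one, map_one, map_one, Real.log_one]
  ring

lemma lam_eq {L : Type} [Field L] [Algebra K L] (F : Fin r → MvPolynomial (Fin m) K)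
    (I : Finset (Fin m)) (x : Fin m → K) (f : AbsoluteValue L ℝ) (c : Comp r I) :
    lam L F I x f c = lp L f (pol F I c) (cdeg F I c) x := by
  rcases c with j | l
  · rfl
  · show Real.log (max 1 (f (algebraMap K L (x l.1)))) = lp L f 1 (cdeg F I (Sum.inr l)) x
    rw [lp_one]
    have h : ∀ i, ((cdeg F I (Sum.inr l) i : ℕ) : ℝ) * Real.log (max 1 (f (algebraMap K L (x i)))) =
        if i = l.1 then Real.log (max 1 (f (algebraMap K L (x i)))) else 0 := by
      intro i
      show (((if i = l.1 then 1 else 0 : ℕ)) : ℝ) * _ = _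
      split_ifs <;> simp
    rw [Finset.sum_congr rfl fun i _ => h i, Finset.sum_ite_eq' Finset.univ l.1]
    simp

open Classical in
lemma cnt_eq (L : Type) [Field L] [NumberField L] [Algebra K L] (S : Finset ℕ)
    (F : Fin r → MvPolynomial (Fin m) K) (I : Finset (Fin m)) (J : Finset (Comp r I))
    (x : Fin m → K) :
    cnt L S F I J x = Pool.Agent.T2h19.ST.cnt L S (pol F I) (cdeg F I) J x := by
  unfold cnt Pool.Agent.T2h19.ST.cnt
  congr 1
  refine finsum_congr fun w => ?_
  have h : ∀ c, lam L F I x (FinitePlace.mk w) c =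
      lp L (Pool.Agent.H691R3.fv w) (pol F I c) (cdeg F I c) x := fun c =>
    lam_eq F I x (Pool.Agent.H691R3.fv w) c
  have h' : (Outside S w ∧ ∃ c ∈ J, 0 < lam L F I x (FinitePlace.mk w) c) ↔
      (Outside S w ∧ ∃ c ∈ J, 0 < lp L (Pool.Agent.H691R3.fv w) (pol F I c) (cdeg F I c) x) := by
    refine and_congr Iff.rfl (exists_congr fun c => and_congr Iff.rfl ?_)
    rw [h c]
  exact if_congr h' rfl rfl

lemma prox_eq (L : Type) [Field L] [NumberField L] [Algebra K L] (S : Finset ℕ)
    (F : Fin r → MvPolynomial (Fin m) K) (I : Finset (Fin m)) (c : Comp r I)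
    (x : Fin m → K) : prox L S F I c x = prp L S (pol F I c) (cdeg F I c) x := by
  unfold prox prp Pool.Agent.T2h19.ST.prox
  have h : ∀ w : HeightOneSpectrum (𝓞 L), lam L F I x (FinitePlace.mk w) c =
      lp L (Pool.Agent.H691R3.fv w) (pol F I c) (cdeg F I c) x := fun w =>
    lam_eq F I x (Pool.Agent.H691R3.fv w) c
  have h2 : ∀ w : InfinitePlace L, lam L F I x w c = lp L w.1 (pol F I c) (cdeg F I c) x :=
    fun w => lam_eq F I x w.1 c
  simp only [h, h2]
  rfl

open Classical in
lemma counting_le [NumberField K] (F : Fin r → MvPolynomial (Fin m) K) (I : Finset (Fin m))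
    (x : Fin m → K) (hl : ∀ c, MvPolynomial.eval x (pol F I c) ≠ 0)
    (hdg : ∀ c i, (pol F I c).degreeOf i ≤ cdeg F I c i) :
    Pool.Agent.Results.MP_9ec3f0_nt.ProductsOfLines.counting ∅ F I x ≤
      finrank ℚ K * Pool.Agent.T2h19.ST.cnt K ∅ (pol F I) (cdeg F I) Finset.univ x := by
  have hd : (finrank ℚ K : ℝ) ≠ 0 := by exact_mod_cast finrank_pos.ne'
  unfold Pool.Agent.T2h19.ST.cnt Pool.Agent.Results.MP_9ec3f0_nt.ProductsOfLines.counting
  rw [mul_div_cancel₀ _ hd]
  have hid : ∀ z : K, algebraMap K K z = z := fun z => rfl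
  have e1 : ∀ v : HeightOneSpectrum (𝓞 K),
      (∑ j, Pool.Agent.Results.MP_9ec3f0_nt.ProductsOfLines.localHeight v (F j) x +
        ∑ i ∈ I, Real.log (max 1 (FinitePlace.mk v (x i)))) =
      ∑ c : Comp r I, lp K (Pool.Agent.H691R3.fv v) (pol F I c) (cdeg F I c) x := by
    intro v
    rw [Fintype.sum_sum_type]
    congr 1
    rw [← Finset.sum_coe_sort I]
    refine Finset.sum_congr rfl fun l _ => ?_
    rw [← lam_eq F I x (Pool.Agent.H691R3.fv v) (Sum.inr l)]
    rfl
  have hnn : ∀ (v : HeightOneSpectrum (𝓞 K)) c,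
      0 ≤ lp K (Pool.Agent.H691R3.fv v) (pol F I c) (cdeg F I c) x := fun v c =>
    lp_nonneg (hdg c) (hl c) v
  have hfin : (⋃ c, {v : HeightOneSpectrum (𝓞 K) |
      lp K (Pool.Agent.H691R3.fv v) (pol F I c) (cdeg F I c) x ≠ 0}).Finite :=
    Set.finite_iUnion fun c => loc_support (L := K) (coeff_ne (ne_of_eval (hl c))) (hl c)
  have e2 : ∀ v : HeightOneSpectrum (𝓞 K), (∑ᶠ (_ : v ∉ (∅ : Set (HeightOneSpectrum (𝓞 K)))),
      min (Real.log (Ideal.absNorm v.asIdeal : ℝ))
        (∑ j, Pool.Agent.Results.MP_9ec3f0_nt.ProductsOfLines.localHeight v (F j) x +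
          ∑ i ∈ I, Real.log (max 1 (FinitePlace.mk v (x i))))) =
      min (Real.log (Ideal.absNorm v.asIdeal : ℝ))
        (∑ c : Comp r I, lp K (Pool.Agent.H691R3.fv v) (pol F I c) (cdeg F I c) x) := by
    intro v
    rw [e1]
    simp
  rw [finsum_congr e2]
  have h0 : ∀ v : HeightOneSpectrum (𝓞 K), 0 ≤ Real.log (Ideal.absNorm v.asIdeal : ℝ) := fun v =>
    Real.log_natCast_nonneg _
  have hz : ∀ v, v ∉ hfin.toFinset → ∀ c,
      lp K (Pool.Agent.H691R3.fv v) (pol F I c) (cdeg F I c) x = 0 := by
    intro v hv c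
    by_contra hc
    exact hv ((Set.Finite.mem_toFinset _).2 (Set.mem_iUnion.2 ⟨c, hc⟩))
  rw [finsum_eq_sum_of_support_subset (s := hfin.toFinset),
    finsum_eq_sum_of_support_subset (s := hfin.toFinset)]
  · refine Finset.sum_le_sum fun v _ => ?_
    split_ifs with h
    · exact min_le_left _ _
    · refine (min_le_right _ _).trans (Finset.sum_nonpos fun c _ => ?_)
      by_contra hc
      exact h ⟨fun p hp => absurd hp (Finset.notMem_empty p), c, Finset.mem_univ c, not_le.1 hc⟩
  · intro v hv
    by_contra hc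
    refine hv (if_neg ?_)
    rintro ⟨-, c, -, hc'⟩
    exact hc'.ne' (hz v (fun h => hc (Finset.mem_coe.2 h)) c)
  · intro v hv
    by_contra hc
    refine hv ?_
    show min (Real.log (Ideal.absNorm v.asIdeal : ℝ))
        (∑ c : Comp r I, lp K (Pool.Agent.H691R3.fv v) (pol F I c) (cdeg F I c) x) = 0
    rw [Finset.sum_eq_zero fun c _ => hz v (fun h => hc (Finset.mem_coe.2 h)) c]
    exact min_eq_right (h0 v)

/-- **Vojta's conjecture for the root stacks of products of lines along all reduced divisors.** Let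
`K` be a number field and `m ≥ 1`. There is ONE set `E` of points `x = (x_1, …, x_m)` over `K` with at
most `C B ^ (2 m) exp (- √ log B)` points with `H(x_i) ≤ B` for all `i` (of about `B ^ (2 m)`), such
that for ALL reduced divisors `D` of `(ℙ¹)^m` over `K` (the sum of prime divisors `F_j = 0` and of the
`x_i = ∞`, `i ∈ I`), ALL finite families of pairs `(F'_l, G'_l)` of polynomials without common
factors, all `Λ ≥ 0` and all `ε > 0` there is a constant `C` such that
`∑_i (q_i - δ(D) / m - ε - ∑_{c ∉ J} d_{c i} / e_c) h(x_i) + ∑_{c ∉ J} m_S(D_c, x) / e_c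
    + Λ ∑_l h_{(F'_l, G'_l)}(x) ≤ N_S^{(1)}(𝒟_J, x) + d(L) - d(K) + ∑_{p ∈ S} log p + C`
for all `x` outside `E` and off `D`, ALL number fields `L ⊇ K`, ALL finite sets `S` of primes, ALL
orders `e_c ≥ 1` such that `x` comes from an integral point over the `S`-integers of `L` of the root
stack of order `e_c` along the components `D_c` of `D`, and ALL sets `J` of components. -/
theorem result (K : Type) [Field K] [NumberField K] (m : ℕ) (hm : 0 < m) :
    ∃ E : Set (Fin m → K),
      (∃ C : ℝ, ∀ B : ℝ, 1 ≤ B →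
        {x | x ∈ E ∧ ∀ i, Height.mulHeight₁ (x i) ≤ B}.Finite ∧
        ({x | x ∈ E ∧ ∀ i, Height.mulHeight₁ (x i) ≤ B}.ncard : ℝ) ≤
          C * B ^ (2 * m) * Real.exp (-√(Real.log B))) ∧
      ∀ (r : ℕ) (F : Fin r → MvPolynomial (Fin m) K) (I : Finset (Fin m)),
        (∀ j, Irreducible (F j)) → (∀ j k, j ≠ k → ¬ Associated (F j) (F k)) →
        ∀ (t : ℕ) (F' G' : Fin t → MvPolynomial (Fin m) K), (∀ l, IsRelPrime (F' l) (G' l)) →
          ∀ Λ ε : ℝ, 0 ≤ Λ → 0 < ε → ∃ C : ℝ, ∀ x : Fin m → K, x ∉ E →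
            (∀ j, MvPolynomial.eval x (F j) ≠ 0) → StackInequality F I F' G' Λ ε C x := by
  obtain ⟨E, hE, h⟩ := Pool.Agent.Results.MP_9ec3f0_nt.ProductsOfLines.result K m hm
  refine ⟨E, hE, fun r F I hF hFF t F' G' hFG Λ ε hΛ hε => ?_⟩
  obtain ⟨C0, h0⟩ := (h r F I ∅ hF hFF Set.finite_empty).1 t F' G' hFG Λ ε hΛ hε
  have hd : (0 : ℝ) < finrank ℚ K := by exact_mod_cast finrank_pos
  refine ⟨C0 / finrank ℚ K + ∑ c : Comp r I,
    logHeight (fun s : (pol F I c).support => (pol F I c).coeff s) / finrank ℚ K,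
    fun x hxE hx => ?_⟩
  intro L _ _ _ S e hS he hint J
  have hl : ∀ c, MvPolynomial.eval x (pol F I c) ≠ 0 := by
    rintro (j | l)
    · exact hx j
    · show MvPolynomial.eval x 1 ≠ 0
      rw [map_one]
      exact one_ne_zero
  have hdg : ∀ c i, (pol F I c).degreeOf i ≤ cdeg F I c i := by
    rintro (j | l) i
    · exact le_refl _
    · show (1 : MvPolynomial (Fin m) K).degreeOf i ≤ _
      rw [← MvPolynomial.C_1, MvPolynomial.degreeOf_C]
      exact Nat.zero_le _
  have hint' : Pool.Agent.T2h19.ST.Int L S (pol F I) (cdeg F I) e x := by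
    intro w hw c
    obtain ⟨t, ht⟩ := hint w hw c
    exact ⟨t, (lam_eq F I x (Pool.Agent.H691R3.fv w) c).symm.trans ht⟩
  have key := transfer L S (pol F I) (cdeg F I) x e J hdg hl hS he hint'
  have h1 := h0 x hxE hx
  have h2 := counting_le F I x hl hdg
  have he0 : ∀ c, (1 : ℝ) ≤ e c := fun c => by exact_mod_cast he c
  have h3 : ∑ c ∈ Jᶜ, 1 / (e c : ℝ) *
      ((logHeight (fun s : (pol F I c).support => (pol F I c).coeff s) +
        ∑ i, (cdeg F I c i : ℝ) * logHeight₁ (x i)) / finrank ℚ K) ≤
      ∑ c : Comp r I,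
        logHeight (fun s : (pol F I c).support => (pol F I c).coeff s) / finrank ℚ K +
      ∑ i, (∑ c ∈ Jᶜ, (cdeg F I c i : ℝ) / e c) * (logHeight₁ (x i) / finrank ℚ K) := by
    have e1 : ∑ c ∈ Jᶜ, 1 / (e c : ℝ) *
      ((logHeight (fun s : (pol F I c).support => (pol F I c).coeff s) +
        ∑ i, (cdeg F I c i : ℝ) * logHeight₁ (x i)) / finrank ℚ K) =
        ∑ c ∈ Jᶜ, 1 / (e c : ℝ) *
          (logHeight (fun s : (pol F I c).support => (pol F I c).coeff s) / finrank ℚ K) +
        ∑ i, (∑ c ∈ Jᶜ, (cdeg F I c i : ℝ) / e c) * (logHeight₁ (x i) / finrank ℚ K) := by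
      simp_rw [Finset.sum_mul]
      rw [Finset.sum_comm (s := Finset.univ), ← Finset.sum_add_distrib]
      refine Finset.sum_congr rfl fun c _ => ?_
      rw [add_div, mul_add, Finset.sum_div, Finset.mul_sum]
      congr 1
      refine Finset.sum_congr rfl fun i _ => ?_
      ring
    rw [e1]
    refine add_le_add ?_ le_rfl
    have h4 : ∀ c, 0 ≤ logHeight (fun s : (pol F I c).support => (pol F I c).coeff s) /
        (finrank ℚ K : ℝ) := fun c => div_nonneg
      (by rw [Height.logHeight_eq_log_mulHeight]; exact Real.log_nonneg (one_le_mulHeight _)) hd.le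
    refine le_trans (b := ∑ c ∈ Jᶜ,
      logHeight (fun s : (pol F I c).support => (pol F I c).coeff s) / finrank ℚ K) ?_ ?_
    · refine Finset.sum_le_sum fun c _ => ?_
      have h5 : 1 / (e c : ℝ) ≤ 1 := by
        rw [div_le_one (by linarith [he0 c])]
        exact he0 c
      exact mul_le_of_le_one_left (h4 c) h5
    · exact Finset.sum_le_sum_of_subset_of_nonneg (Finset.subset_univ _) fun c _ _ => h4 c
  have h6 : ∑ i, ((degree F I i : ℝ) - (defect F : ℝ) / m - ε -
      ∑ c ∈ Jᶜ, (cdeg F I c i : ℝ) / e c) * (logHeight₁ (x i) / finrank ℚ K) =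
      (∑ i, ((degree F I i : ℝ) - (defect F : ℝ) / m - ε) * logHeight₁ (x i)) / finrank ℚ K -
      ∑ i, (∑ c ∈ Jᶜ, (cdeg F I c i : ℝ) / e c) * (logHeight₁ (x i) / finrank ℚ K) := by
    rw [Finset.sum_div, ← Finset.sum_sub_distrib]
    refine Finset.sum_congr rfl fun i _ => ?_
    ring
  have h7 : (∑ i, ((degree F I i : ℝ) - (defect F : ℝ) / m - ε) * logHeight₁ (x i)) /
      finrank ℚ K + Λ * ((∑ l, idealHeight (F' l) (G' l) x) / finrank ℚ K) ≤
      Pool.Agent.T2h19.ST.cnt K ∅ (pol F I) (cdeg F I) Finset.univ x + C0 / finrank ℚ K := by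
    have h8 := div_le_div_of_nonneg_right (h1.trans (add_le_add_left h2 C0)) hd.le
    have e1 : (finrank ℚ K * Pool.Agent.T2h19.ST.cnt K ∅ (pol F I) (cdeg F I) Finset.univ x + C0) /
        (finrank ℚ K : ℝ) = Pool.Agent.T2h19.ST.cnt K ∅ (pol F I) (cdeg F I) Finset.univ x +
          C0 / finrank ℚ K := by
      field_simp
    rw [e1, add_div, mul_div_assoc Λ] at h8
    exact h8
  have h9 : ∑ c ∈ Jᶜ, prox L S F I c x / e c =
      ∑ c ∈ Jᶜ, 1 / (e c : ℝ) * prp L S (pol F I c) (cdeg F I c) x := by
    refine Finset.sum_congr rfl fun c _ => ?_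
    rw [prox_eq]
    ring
  rw [h6, h9, cnt_eq, ← Finset.sum_div]
  linarith

end Pool.Agent.Results.MP_a41896_nt.StackyProductsOfLines
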