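import Mathlib
import Pool.Agent.R366.QD.Main
import Pool.Agent.N752.HY.Fld
import Pool.Agent.N752.HY.Ext

/-!
# Vojta's conjecture for the root stacks of quadrics over number fields

`K` is a number field, `X` the quadric `Q = 0` in `ℙⁿ` over `K`, where `Q = ∑ A_ij x_i x_j` has rank at
least five (for instance a smooth quadric of dimension at least three), so that `K_X` is
`- (n - 1)` times the hyperplane section. `X` has about `B ^ (n - 1)` rational points of relative
height at most `B`, if it has any.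

`D_j` is the divisor `F_j = 0` on `X`, `F_j` an irreducible form over `K` of degree `k_j`. Any number
of hyperplane sections is allowed, and also sections with other hypersurfaces that depend on few
linear forms: for all `i` and `j` the form `Q` must have rank at least two on the linear space of the
vectors along which `F_i` and `F_j` are constant. (If `Q` has rank at least six this is automatic for
hyperplanes; if `Q` has rank five it holds for two hyperplane sections with normal crossings.) The
weight `m_j` is `k_j` if `F_j` is linear or quadratic, `m_j` if `F_j` is the norm form of a linear form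
with `m_j` linearly independent coefficients, and each `D_j` has weight one.

Let `𝒳` be the root stack of `X` of order `e_j ≥ 1` along `D_j` for all `j`, with coarse space `X` (a
smooth proper Deligne-Mumford stack if `X` is smooth and the sum of the `D_j` with `e_j > 1` has
simple normal crossings). For a set `J` of indices let `𝒟_J` be the sum of the stacky divisors above
the `D_j`, `j ∈ J`. Then `K_𝒳 + 𝒟_J` is the pullback of
`K_X + ∑_{j ∈ J} D_j + ∑_{j ∉ J} (1 - 1 / e_j) D_j`, so that
`h_{K_𝒳 + 𝒟_J}(P) = (∑ k_j - n + 1 - ∑_{j ∉ J} k_j / e_j) h(P)`.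

A point `P ∈ X(K)` off the `D_j` comes from an integral point of `𝒳` over the ring of `S`-integers of
a number field `L ⊇ K` if for every prime `w` of `L` not above `S` and all `j` the intersection number
of `P` and `D_j` at `w`, that is `log (|x|_w ^ k_j / |F_j(x)|_w) / log N(w)`, is divisible by `e_j`.

For each `θ < ∑ m_j` all but `O(B ^ (n - 1 - c))` of the points `P` of `X(K)` of relative height at
most `B` satisfy, for ALL number fields `L ⊇ K`, ALL finite `S`, ALL orders `e_j ≥ 1` such that `P`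
comes from an integral point of `𝒳` over the `S`-integers of `L`, and ALL `J`

  `θ log B / [K : ℚ] - ∑_{j ∉ J} k_j / e_j h(P) + ∑_{j ∉ J} m_S(D_j, P) / e_j + Λ ∑ h_{(F'_l, G'_l)}(P)
      ≤ N¹_S(𝒟_J, P) + d(L) - d(K) + ∑_{p ∈ S} log p`

(`log B ≥ [K : ℚ] h(P)`), with truncated counting function and logarithmic discriminant over `L`, the
proximity function `m_S`, and the heights `h_{(F', G')}` relative to ideals `(F', G')`, of linear
sections of codimension two for instance, for the points on root stacks over blow-ups of `X`. So the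
inequality `h_{K_𝒳 + 𝒟_J}(P) ≤ N¹_S(𝒟_J, P) + ε h(P) + d(L) + O(1)` holds for almost all rational
points `P` if the sum of the `k_j - m_j` is at most `n - 1`, with `(n - 1 - ε) h(P)` to spare if the
`F_j` are linear or quadratic.

Proof: over `K` the inequality is a starting theorem (`MP_9ec3f0_nt.Quadrics`, by helper366). The
truncated counting function over `K` is bounded by the logarithmic discriminant of `L / K` and the
truncated counting function over `L`, of which the primes where `P` meets some `D_j`, `j ∉ J`, make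
up at most `(k_j h(P) - m_S(D_j, P)) / e_j` each (`Pool.Agent.N752.HY.Ext`).
-/

set_option autoImplicit false

namespace Pool.Agent.Results.MP_a41896_nt.StackyQuadrics

open MvPolynomial NumberField IsDedekindDomain Module
open scoped LinearAlgebra.Projectivization
open Pool.Agent.N752.HY (cnt prox Integral ldisc hgt)
open Pool.Agent.R366.NF (idealHeight)

variable {K : Type} [Field K] [NumberField K] {n q t : ℕ}

/-- The quadratic form `∑ A_ij x_i x_j` has rank at least `r` on the linear space `W`: there are `r`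
pairwise orthogonal nonisotropic vectors in `W`. -/
def RankGe (A : Fin (n + 1) → Fin (n + 1) → 𝓞 K) (W : Set (Fin (n + 1) → K)) (r : ℕ) : Prop :=
  ∃ w : Fin r → Fin (n + 1) → K, (∀ a, w a ∈ W) ∧
    (∀ a, ∑ i, ∑ j, (A i j : K) * w a i * w a j ≠ 0) ∧
    ∀ a b, a ≠ b → ∑ i, ∑ j, (A i j : K) * w a i * w b j = 0

/-- `F` is constant along the vector `w`. -/
def Along (F : MvPolynomial (Fin (n + 1)) (𝓞 K)) (w : Fin (n + 1) → K) : Prop :=
  ∀ (c : K) (x : Fin (n + 1) → K), aeval (x + c • w) F = aeval x F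

/-- `F` is, up to a constant factor, the norm form of `∑ α i * x i` from an extension `E` of `K`, and
`m` of the `α i` are linearly independent over `K`. -/
def IsNormForm (F : MvPolynomial (Fin (n + 1)) (𝓞 K)) (m : ℕ) : Prop :=
  ∃ (E : Type) (_ : Field E) (_ : NumberField E) (_ : Algebra K E) (c : K) (α : Fin (n + 1) → E)
    (J : Finset (Fin (n + 1))), c ≠ 0 ∧ J.card = m ∧
      LinearIndependent K (fun j : J => α j) ∧
      ∀ x : Fin (n + 1) → 𝓞 K, ((eval x F : 𝓞 K) : K) =
        c * Algebra.norm K (∑ i, algebraMap K E (x i) * α i)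

/-- The inequality for all root stacks at the point `P`: no `F_j` vanishes at `P`, and for ALL number
fields `L` which contain `K`, ALL finite sets `S` of primes, ALL orders `e_j ≥ 1` such that `P` comes
from an integral point over the `S`-integers of `L` of the root stack of order `e_j` along `D_j`, and
ALL sets `J` of indices
`θ log B / [K : ℚ] - ∑_{j ∉ J} k_j / e_j h(P) + ∑_{j ∉ J} m_S(D_j, P) / e_j
    + Λ ∑_l h_{(F'_l, G'_l)}(P) ≤ N_S^{(1)}(𝒟_J, P) + d(L) - d(K) + ∑_{p ∈ S} log p`. -/
def StackInequality (F : Fin q → MvPolynomial (Fin (n + 1)) (𝓞 K)) (k : Fin q → ℕ)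
    (F' G' : Fin t → MvPolynomial (Fin (n + 1)) (𝓞 K)) (k' e' : Fin t → ℕ) (Λ θ B : ℝ)
    (P : ℙ K (Fin (n + 1) → K)) : Prop :=
  (∀ j, aeval P.rep (F j) ≠ 0) ∧
  ∀ (L : Type) [Field L] [NumberField L] [Algebra K L] (S : Finset ℕ) (e : Fin q → ℕ),
    (∀ p ∈ S, p.Prime) → (∀ j, 1 ≤ e j) → Integral L S F k e P.rep → ∀ J : Finset (Fin q),
      θ * Real.log B / finrank ℚ K - (∑ j ∈ Jᶜ, (k j : ℝ) / e j) * hgt P.rep +
          ∑ j ∈ Jᶜ, prox L S (F j) (k j) P.rep / e j +
          Λ * ∑ l, idealHeight (F' l) (G' l) (k' l) (e' l) P.rep / finrank ℚ K ≤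
        cnt L S F k J P.rep + (ldisc L - ldisc K) + ∑ p ∈ S, Real.log p

/-- **Vojta's conjecture for the root stacks of quadrics, at almost all rational points.** -/
theorem result (K : Type) [Field K] [NumberField K] (n q : ℕ)
    (A : Fin (n + 1) → Fin (n + 1) → 𝓞 K) (hA : ∀ i j, A i j = A j i)
    (hrank : RankGe A Set.univ 5)
    (F : Fin q → MvPolynomial (Fin (n + 1)) (𝓞 K)) (k m : Fin q → ℕ)
    (hhom : ∀ j, (F j).IsHomogeneous (k j))
    (hirr : ∀ j, Irreducible (map (algebraMap (𝓞 K) K) (F j)))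
    (hdist : ∀ i j, i ≠ j →
      ¬ Associated (map (algebraMap (𝓞 K) K) (F i)) (map (algebraMap (𝓞 K) K) (F j)))
    (hm : ∀ j, m j ≤ 1 ∨ (m j ≤ k j ∧ k j ≤ 2) ∨ IsNormForm (F j) (m j))
    (hpair : ∀ i j, RankGe A {w | Along (F i) w ∧ Along (F j) w} 2)
    (t : ℕ) (F' G' : Fin t → MvPolynomial (Fin (n + 1)) (𝓞 K)) (k' e' : Fin t → ℕ)
    (hF' : ∀ l, (F' l).IsHomogeneous (k' l)) (hG' : ∀ l, (G' l).IsHomogeneous (e' l))
    (hirr' : ∀ l, Irreducible (map (algebraMap (𝓞 K) K) (F' l)))
    (hcop : ∀ l, ¬ map (algebraMap (𝓞 K) K) (F' l) ∣ map (algebraMap (𝓞 K) K) (G' l))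
    (hideal : ∀ l, RankGe A {w | Along (F' l) w ∧ Along (G' l) w} 2)
    (Λ : ℝ) (hΛ : 0 ≤ Λ) (θ : ℝ) (hθ : θ < ∑ j, (m j : ℝ)) :
    ∃ c : ℝ, 0 < c ∧ ∃ C : ℝ, ∀ B : ℕ, 1 ≤ B → ∃ Z : Finset (ℙ K (Fin (n + 1) → K)),
      (Z.card : ℝ) ≤ C * (B : ℝ) ^ ((n : ℝ) - 1 - c) ∧
      ∀ P : ℙ K (Fin (n + 1) → K), ∑ i, ∑ j, (A i j : K) * P.rep i * P.rep j = 0 →
        P.mulHeight ≤ B → P ∉ Z → StackInequality F k F' G' k' e' Λ θ B P := by
  obtain ⟨c, hc, C, h⟩ := Pool.Agent.R366.QD.main_quadric hA hrank F k m hhom hirr hdist hm hpair ∅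
    (by simp) F' G' k' e' hF' hG' hirr' hcop hideal Λ hΛ θ hθ
  refine ⟨c, hc, C, fun B hB => ?_⟩
  obtain ⟨Z, hZ, h2⟩ := h B hB
  refine ⟨Z, hZ, fun P hP hPB hPZ => ?_⟩
  obtain ⟨g1, g2⟩ := h2 P hP hPB hPZ
  refine ⟨g1, fun L _ _ _ S e hS he hint J => ?_⟩
  have hd : (0 : ℝ) < finrank ℚ K := by exact_mod_cast finrank_pos
  have g3 := Pool.Agent.N752.HY.Ext.t_EXT K inferInstance inferInstance L inferInstance
    inferInstance inferInstance n q F k P.rep S e J hhom P.rep_nonzero g1 hS he hint
  rw [Pool.Agent.N752.HY.cnt_self F k g1] at g3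
  have g4 : ∑ j ∈ Jᶜ, prox L S (F j) (k j) P.rep / e j =
      ∑ j ∈ Jᶜ, 1 / (e j : ℝ) * prox L S (F j) (k j) P.rep :=
    Finset.sum_congr rfl fun j _ => by ring
  have g5 := div_le_div_of_nonneg_right g2 hd.le
  rw [add_div, mul_div_assoc Λ] at g5
  rw [← Finset.sum_div, g4]
  linarith

end Pool.Agent.Results.MP_a41896_nt.StackyQuadrics
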